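import Mathlib

set_option autoImplicit false

namespace Pool.Agent.IndSat

/-- Induced copies, for hypergraphs given by predicates on finite sets. -/
def Copy {W V : Type} (k : ℕ) (H : Finset W → Prop) (G : Finset V → Prop) : Prop :=
  ∃ φ : W ↪ V, ∀ S : Finset W, S.card = k → (H S ↔ G (S.map φ))

/-- Existence of a strongly saturated hypergraph on `V`. -/
def Sat {W : Type} (k : ℕ) (H : Finset W → Prop) (V : Type) : Prop :=
  ∃ G : Finset V → Prop, ¬ Copy k H G ∧
    ∀ P : Set (Finset V), P.Nonempty → (∀ e ∈ P, e.card = k) →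
      (∀ v, {e | e ∈ P ∧ v ∈ e}.Finite) → Copy k H (fun S => ¬ (G S ↔ S ∈ P))

theorem Copy.trans {U W V : Type} {k : ℕ} {F : Finset U → Prop} {H : Finset W → Prop}
    {G : Finset V → Prop} (h1 : Copy k F H) (h2 : Copy k H G) : Copy k F G := by
  obtain ⟨φ, hφ⟩ := h1
  obtain ⟨ψ, hψ⟩ := h2
  refine ⟨φ.trans ψ, fun S hS => ?_⟩
  rw [hφ S hS, hψ _ (by rw [Finset.card_map]; exact hS), Finset.map_map]

theorem Copy.refl {W : Type} (k : ℕ) (H : Finset W → Prop) : Copy k H H :=
  ⟨Function.Embedding.refl _, fun S _ => by rw [Finset.map_refl]⟩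

theorem Copy.congr {W V : Type} {k : ℕ} {H : Finset W → Prop} {G G' : Finset V → Prop}
    (h : ∀ S : Finset V, S.card = k → (G S ↔ G' S)) (hc : Copy k H G) : Copy k H G' := by
  obtain ⟨φ, hφ⟩ := hc
  refine ⟨φ, fun S hS => ?_⟩
  rw [hφ S hS, h _ (by rw [Finset.card_map]; exact hS)]

theorem copy_equiv {W V : Type} {k : ℕ} (e : W ≃ V) {H : Finset W → Prop}
    {G : Finset V → Prop} (h : ∀ S : Finset W, S.card = k → (H S ↔ G (S.map e.toEmbedding))) :
    Copy k H G := ⟨e.toEmbedding, h⟩

theorem Sat.compl {W V : Type} {k : ℕ} {H : Finset W → Prop} (h : Sat k H V) :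
    Sat k (fun S => ¬ H S) V := by
  obtain ⟨G, h1, h2⟩ := h
  refine ⟨fun S => ¬ G S, ?_, ?_⟩
  · rintro ⟨φ, hφ⟩
    exact h1 ⟨φ, fun S hS => not_iff_not.1 (hφ S hS)⟩
  · intro P hP hPk hPf
    obtain ⟨φ, hφ⟩ := h2 P hP hPk hPf
    refine ⟨φ, fun S hS => ?_⟩
    have h3 := hφ S hS
    by_cases h4 : G (S.map φ) <;> by_cases h5 : S.map φ ∈ P <;> simp_all

theorem Sat.equivW {W W' V : Type} {k : ℕ} (e : W ≃ W') {H : Finset W → Prop}
    {H' : Finset W' → Prop} (he : ∀ S : Finset W, S.card = k → (H S ↔ H' (S.map e.toEmbedding)))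
    (h : Sat k H V) : Sat k H' V := by
  have he' : ∀ S : Finset W', S.card = k → (H' S ↔ H (S.map e.symm.toEmbedding)) := by
    intro S hS
    rw [he _ (by rw [Finset.card_map]; exact hS), Finset.map_map]
    have : e.symm.toEmbedding.trans e.toEmbedding = Function.Embedding.refl _ := by
      ext x; simp
    rw [this, Finset.map_refl]
  obtain ⟨G, h1, h2⟩ := h
  refine ⟨G, fun hc => h1 ((copy_equiv e he).trans hc), fun P hP hPk hPf => ?_⟩
  exact (copy_equiv e.symm he').trans (h2 P hP hPk hPf)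

theorem Sat.equivV {W V V' : Type} {k : ℕ} (e : V ≃ V') {H : Finset W → Prop}
    (h : Sat k H V) : Sat k H V' := by
  obtain ⟨G, h1, h2⟩ := h
  refine ⟨fun S => G (S.map e.symm.toEmbedding), ?_, ?_⟩
  · rintro ⟨φ, hφ⟩
    refine h1 ⟨φ.trans e.symm.toEmbedding, fun S hS => ?_⟩
    rw [hφ S hS]
    simp only [Finset.map_map]
  · intro P hP hPk hPf
    have hback : ∀ S : Finset V, (S.map e.toEmbedding).map e.symm.toEmbedding = S := by
      intro S
      rw [Finset.map_map]
      have : e.toEmbedding.trans e.symm.toEmbedding = Function.Embedding.refl _ := by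
        ext x; simp
      rw [this, Finset.map_refl]
    have hback' : ∀ S : Finset V', (S.map e.symm.toEmbedding).map e.toEmbedding = S := by
      intro S
      rw [Finset.map_map]
      have : e.symm.toEmbedding.trans e.toEmbedding = Function.Embedding.refl _ := by
        ext x; simp
      rw [this, Finset.map_refl]
    let P' : Set (Finset V) := {S | S.map e.toEmbedding ∈ P}
    have hP'1 : P'.Nonempty := by
      obtain ⟨S, hS⟩ := hP
      exact ⟨S.map e.symm.toEmbedding, by simpa [P', hback'] using hS⟩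
    have hP'2 : ∀ S ∈ P', S.card = k := by
      intro S hS
      have := hPk _ hS
      rwa [Finset.card_map] at this
    have hP'3 : ∀ v, {S | S ∈ P' ∧ v ∈ S}.Finite := by
      intro v
      have hf := hPf (e v)
      apply Set.Finite.of_finite_image (f := fun S : Finset V => S.map e.toEmbedding)
      · apply hf.subset
        rintro _ ⟨S, ⟨hS1, hS2⟩, rfl⟩
        exact ⟨hS1, by simpa using hS2⟩
      · intro S _ T _ hST
        exact Finset.map_injective _ hST
    obtain ⟨φ, hφ⟩ := h2 P' hP'1 hP'2 hP'3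
    refine ⟨φ.trans e.toEmbedding, fun S hS => ?_⟩
    rw [hφ S hS]
    have h3 : (S.map (φ.trans e.toEmbedding)) = (S.map φ).map e.toEmbedding := by
      rw [Finset.map_map]
    rw [h3]
    simp only [hback]
    rfl

end Pool.Agent.IndSat
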