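import Mathlib
import Pool.Agent.MP_9095a7_co.Frame

set_option autoImplicit false

namespace Pool.Agent.IndSat

open Classical in
/-- No copy of `Hs` can appear when a block is attached over a `k`-set of status `b`. -/
def NoCopy {W Ws : Type} (k q : ℕ) (Hs : Finset Ws → Prop) (T : Fin k ⊕ Fin q ≃ W)
    (D : Finset W → Prop) (s b : Prop) : Prop :=
  ∀ (out : Ws → Prop) (p : Ws → Fin k ⊕ Fin q),
    (∃ v i, ¬ out v ∧ p v = Sum.inr i) →
    (∀ v w l, ¬ out v → ¬ out w → p v = Sum.inl l → p w = Sum.inl l → v = w) →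
    (∀ S : Finset Ws, S.card = k → (∃ v ∈ S, ¬ out v ∧ ∃ i, p v = Sum.inr i) →
      (Hs S ↔ (((∃ v ∈ S, out v) ∧ s) ∨
        ((∀ v ∈ S, ¬ out v) ∧ D (S.image (fun v => T (p v))))))) →
    (∀ S : Finset Ws, S.card = k → (∀ v ∈ S, ¬ out v ∧ ∃ l, p v = Sum.inl l) → (Hs S ↔ b)) →
    False

/-- The vertex type: block, class, index of the clone. -/
abbrev Vt (q : ℕ) : Type := ℕ × Fin q × ℕ

/-- Outside vertices for a block. -/
def outF {k q : ℕ} (n : ℕ) (e : Fin k ↪ Vt q) (v : Vt q) : Prop := v.1 ≠ n ∧ ∀ l, e l ≠ v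

open Classical in
/-- Type of a vertex with respect to a block. -/
noncomputable def posF {k q : ℕ} (n : ℕ) (e : Fin k ↪ Vt q) (v : Vt q) : Fin k ⊕ Fin q :=
  if v.1 = n then Sum.inr v.2.1 else if h : ∃ l, e l = v then Sum.inl h.choose else Sum.inr v.2.1

open Classical in
/-- Status of a set meeting a block. -/
def stat {W : Type} {k q : ℕ} (T : Fin k ⊕ Fin q ≃ W) (D : Finset W → Prop) (s : Prop)
    (n : ℕ) (e : Fin k ↪ Vt q) (S : Finset (Vt q)) : Prop :=
  (((∃ v ∈ S, outF n e v) ∧ s) ∨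
        ((∀ v ∈ S, ¬ outF n e v) ∧ D (S.image (fun v => T (posF n e v)))))

open Classical in
/-- The stages of the construction. -/
noncomputable def Est {W : Type} {k q : ℕ} (ε : ℕ → Fin k ↪ Vt q)
    (T : Bool → (Fin k ⊕ Fin q ≃ W)) (D : Bool → Finset W → Prop) (s : Bool → Prop) :
    ℕ → Finset (Vt q) → Prop
  | 0, _ => False
  | n + 1, S =>
    ((∃ v ∈ S, v.1 = n + 1) ∧
      stat (T (decide (Est ε T D s n (Finset.univ.map (ε n)))))
        (D (decide (Est ε T D s n (Finset.univ.map (ε n)))))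
        (s (decide (Est ε T D s n (Finset.univ.map (ε n))))) (n + 1) (ε n) S) ∨
    ((∀ v ∈ S, v.1 ≠ n + 1) ∧ Est ε T D s n S)

/-- Highest block met by a set. -/
def lev {q : ℕ} (S : Finset (Vt q)) : ℕ := S.sup (fun v => v.1)

section

variable {W : Type} {k q : ℕ} (ε : ℕ → Fin k ↪ Vt q)
    (T : Bool → (Fin k ⊕ Fin q ≃ W)) (D : Bool → Finset W → Prop) (s : Bool → Prop)

theorem Est_stable (n : ℕ) (S : Finset (Vt q)) (h : lev S ≤ n) :
    Est ε T D s n S ↔ Est ε T D s (lev S) S := by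
  induction n with
  | zero =>
    have : lev S = 0 := by omega
    rw [this]
  | succ n ih =>
    rcases Nat.lt_or_ge n (lev S) with h1 | h1
    · have : lev S = n + 1 := by omega
      rw [this]
    · rw [← ih h1]
      have hno : ∀ v ∈ S, v.1 ≠ n + 1 := by
        intro v hv h2
        have : v.1 ≤ lev S := Finset.le_sup (f := fun v : Vt q => v.1) hv
        omega
      have hno' : ¬ ∃ v ∈ S, v.1 = n + 1 := by
        rintro ⟨v, hv, h2⟩
        exact hno v hv h2
      rw [Est]
      constructor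
      · rintro (h2 | h2)
        · exact absurd h2.1 hno'
        · exact h2.2
      · intro h2
        exact Or.inr ⟨hno, h2⟩

/-- The final hypergraph. -/
noncomputable def Gfin (S : Finset (Vt q)) : Prop := Est ε T D s (lev S) S

/-- The status of the task at stage `n`. -/
noncomputable def bst (n : ℕ) : Bool :=
  @decide (Gfin ε T D s (Finset.univ.map (ε n))) (Classical.propDecidable _)

theorem lev_map_le (hε : ∀ n l, (ε n l).1 ≤ n) (n : ℕ) :
    lev (Finset.univ.map (ε n)) ≤ n := by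
  apply Finset.sup_le
  intro v hv
  obtain ⟨l, -, rfl⟩ := Finset.mem_map.1 hv
  exact hε n l

theorem bst_eq (hε : ∀ n l, (ε n l).1 ≤ n) (n : ℕ) :
    @decide (Est ε T D s n (Finset.univ.map (ε n))) (Classical.propDecidable _)
      = bst ε T D s n := by
  classical
  unfold bst Gfin
  have := Est_stable ε T D s n _ (lev_map_le ε hε n)
  simp only [this]

theorem Gfin_top (hε : ∀ n l, (ε n l).1 ≤ n) (n : ℕ) (S : Finset (Vt q)) (hS : lev S = n + 1) :
    Gfin ε T D s S ↔ stat (T (bst ε T D s n)) (D (bst ε T D s n)) (s (bst ε T D s n))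
      (n + 1) (ε n) S := by
  have hex : ∃ v ∈ S, v.1 = n + 1 := by
    have hne : S.Nonempty := by
      rw [Finset.nonempty_iff_ne_empty]
      rintro rfl
      simp [lev] at hS
    obtain ⟨v, hv, h1⟩ := Finset.exists_mem_eq_sup S hne (fun v => v.1)
    exact ⟨v, hv, by rw [← h1]; exact hS⟩
  have hno : ¬ ∀ v ∈ S, v.1 ≠ n + 1 := by
    obtain ⟨v, hv, h1⟩ := hex
    intro h
    exact h v hv h1
  unfold Gfin
  rw [hS, Est, bst_eq ε T D s hε]
  constructor
  · rintro (h | h)
    · exact h.2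
    · exact absurd h.1 hno
  · intro h
    exact Or.inl ⟨hex, h⟩

theorem Gfin_zero (S : Finset (Vt q)) (hS : lev S = 0) : ¬ Gfin ε T D s S := by
  unfold Gfin
  rw [hS, Est]
  exact id

end

end Pool.Agent.IndSat
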