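import Mathlib
import Pool.Agent.MP_9095a7_co.Build

set_option autoImplicit false

namespace Pool.Agent.IndSat

theorem posF_top {k q : ℕ} {n : ℕ} {e : Fin k ↪ Vt q} {v : Vt q} (h : v.1 = n) :
    posF n e v = Sum.inr v.2.1 := by
  unfold posF
  rw [if_pos h]

theorem posF_e {k q : ℕ} {n : ℕ} {e : Fin k ↪ Vt q} (l : Fin k) (h : (e l).1 ≠ n) :
    posF n e (e l) = Sum.inl l := by
  classical
  unfold posF
  have h1 : ∃ l', e l' = e l := ⟨l, rfl⟩
  rw [if_neg h, dif_pos h1]
  congr 1
  exact e.injective h1.choose_spec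

theorem posF_inl {k q : ℕ} {n : ℕ} {e : Fin k ↪ Vt q} {v : Vt q} {l : Fin k}
    (h : posF n e v = Sum.inl l) : e l = v := by
  unfold posF at h
  split_ifs at h with h1 h2
  rw [← Sum.inl.inj h]
  exact h2.choose_spec

theorem new_top {k q : ℕ} {n : ℕ} {e : Fin k ↪ Vt q} {v : Vt q} {i : Fin q}
    (h1 : ¬ outF n e v) (h : posF n e v = Sum.inr i) : v.1 = n := by
  by_contra h2
  apply h1
  refine ⟨h2, fun l hl => ?_⟩
  subst hl
  rw [posF_e l h2] at h
  cases h

section

variable {W : Type} {k q : ℕ} (ε : ℕ → Fin k ↪ Vt q)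
    (T : Bool → (Fin k ⊕ Fin q ≃ W)) (D : Bool → Finset W → Prop) (s : Bool → Prop)

theorem Gfin_free (hε : ∀ n l, (ε n l).1 ≤ n) {Ws : Type} [Finite Ws] (Hs : Finset Ws → Prop)
    (hne : ∃ S, S.card = k ∧ Hs S)
    (hno : ∀ b : Bool, NoCopy k q Hs (T b) (D b) (s b) (b = true)) :
    ¬ Copy k Hs (Gfin ε T D s) := by
  classical
  have := Fintype.ofFinite Ws
  rintro ⟨φ, hφ⟩
  have hle : ∀ S : Finset Ws, lev (S.map φ) ≤ lev (Finset.univ.map φ) := by
    intro S
    exact Finset.sup_mono (Finset.map_subset_map.2 (Finset.subset_univ S))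
  rcases Nat.eq_zero_or_pos (lev (Finset.univ.map φ)) with h0 | h0
  · obtain ⟨S, hS, hH⟩ := hne
    have h1 := hle S
    exact Gfin_zero ε T D s _ (by omega) ((hφ S hS).1 hH)
  · obtain ⟨n, hn⟩ : ∃ n, lev (Finset.univ.map φ) = n + 1 := ⟨_, (Nat.succ_pred_eq_of_pos h0).symm⟩
    have hvle : ∀ v, (φ v).1 ≤ n + 1 := by
      intro v
      rw [← hn]
      exact Finset.le_sup (f := fun v : Vt q => v.1) (Finset.mem_map_of_mem φ (Finset.mem_univ v))
    apply hno (bst ε T D s n) (fun v => outF (n + 1) (ε n) (φ v))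
      (fun v => posF (n + 1) (ε n) (φ v))
    · have hne' : (Finset.univ.map φ).Nonempty := by
        rw [Finset.nonempty_iff_ne_empty]
        intro h
        rw [h] at hn
        simp [lev] at hn
      obtain ⟨v, hv, h1⟩ := Finset.exists_mem_eq_sup _ hne' (fun v => v.1)
      obtain ⟨w, -, rfl⟩ := Finset.mem_map.1 hv
      have h2 : (φ w).1 = n + 1 := by rw [← h1]; exact hn
      exact ⟨w, (φ w).2.1, fun h => h.1 h2, posF_top h2⟩
    · intro v w l _ _ hv hw
      exact φ.injective ((posF_inl hv).symm.trans (posF_inl hw))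
    · rintro S hS ⟨v, hvS, hv1, i, hv2⟩
      have htop := new_top hv1 hv2
      have hlev : lev (S.map φ) = n + 1 := by
        apply le_antisymm
        · rw [← hn]; exact hle S
        · rw [← htop]
          exact Finset.le_sup (f := fun v : Vt q => v.1) (Finset.mem_map_of_mem φ hvS)
      rw [hφ S hS, Gfin_top ε T D s hε n _ hlev]
      unfold stat
      have h1 : (∃ v ∈ S.map φ, outF (n + 1) (ε n) v) ↔ ∃ v ∈ S, outF (n + 1) (ε n) (φ v) := by
        simp
      have h2 : (∀ v ∈ S.map φ, ¬ outF (n + 1) (ε n) v) ↔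
          ∀ v ∈ S, ¬ outF (n + 1) (ε n) (φ v) := by
        simp
      have h3 : (S.map φ).image (fun v => T (bst ε T D s n) (posF (n + 1) (ε n) v)) =
          S.image (fun v => T (bst ε T D s n) (posF (n + 1) (ε n) (φ v))) := by
        rw [Finset.map_eq_image, Finset.image_image]
        rfl
      rw [h1, h2, h3]
    · intro S hS hall
      have hsub : S.map φ ⊆ Finset.univ.map (ε n) := by
        intro v hv
        obtain ⟨w, hw, rfl⟩ := Finset.mem_map.1 hv
        obtain ⟨-, l, hl⟩ := hall w hw
        rw [← posF_inl hl]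
        exact Finset.mem_map_of_mem _ (Finset.mem_univ l)
      have heq : S.map φ = Finset.univ.map (ε n) := by
        apply Finset.eq_of_subset_of_card_le hsub
        rw [Finset.card_map, Finset.card_map, hS]
        simp
      rw [hφ S hS, heq]
      unfold bst
      simp

/-- Choosing clones that avoid a locally finite family. -/
theorem exists_clones (hk : 2 ≤ k) (n : ℕ) (e : Fin k ↪ Vt q)
    (P : Set (Finset (Vt q))) (hPk : ∀ e ∈ P, e.card = k)
    (hPf : ∀ v, {e | e ∈ P ∧ v ∈ e}.Finite) :
    ∃ j : Fin q → ℕ, ∀ S ∈ P, (∀ v ∈ S, (∃ l, e l = v) ∨ ∃ i, v = (n + 1, i, j i)) →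
      ∀ v ∈ S, ∃ l, e l = v := by
  classical
  have key : ∀ m : ℕ, m ≤ q → ∃ j : Fin q → ℕ, ∀ S ∈ P,
      (∀ v ∈ S, (∃ l, e l = v) ∨ ∃ i : Fin q, i.1 < m ∧ v = (n + 1, i, j i)) →
      ∀ v ∈ S, ∃ l, e l = v := by
    intro m
    induction m with
    | zero =>
      intro _
      refine ⟨fun _ => 0, fun S _ h v hv => ?_⟩
      rcases h v hv with h | ⟨i, hi, -⟩
      · exact h
      · omega
    | succ m ih =>
      intro hm
      obtain ⟨j, hj⟩ := ih (by omega)
      let F : Finset (Vt q) := Finset.univ.map e ∪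
        (Finset.univ.image (fun i : Fin q => ((n + 1, i, j i) : Vt q)))
      have hfin : (⋃ v ∈ F, {e | e ∈ P ∧ v ∈ e}).Finite :=
        Set.Finite.biUnion F.finite_toSet (fun v _ => hPf v)
      have hfin2 : (⋃ S ∈ (⋃ v ∈ F, {e | e ∈ P ∧ v ∈ e}), (S : Set (Vt q))).Finite :=
        Set.Finite.biUnion hfin (fun S _ => S.finite_toSet)
      let i0 : Fin q := ⟨m, by omega⟩
      have hinf : ∃ x : ℕ, ((n + 1, i0, x) : Vt q) ∉
          (⋃ S ∈ (⋃ v ∈ F, {e | e ∈ P ∧ v ∈ e}), (S : Set (Vt q))) := by
        by_contra hcon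
        push Not at hcon
        have h1 : (Set.range (fun x : ℕ => ((n + 1, i0, x) : Vt q))).Finite := by
          apply hfin2.subset
          rintro _ ⟨x, rfl⟩
          exact hcon x
        have h2 : Function.Injective (fun x : ℕ => ((n + 1, i0, x) : Vt q)) := by
          intro x y hxy
          simpa using hxy
        exact Set.infinite_range_of_injective h2 h1
      obtain ⟨x, hx⟩ := hinf
      refine ⟨Function.update j i0 x, fun S hS h => ?_⟩
      by_cases hmem : ((n + 1, i0, x) : Vt q) ∈ S
      · exfalso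
        -- another vertex of `S`
        have hcard : 1 < S.card := by rw [hPk S hS]; omega
        obtain ⟨v, hv, hne⟩ := Finset.exists_mem_ne hcard ((n + 1, i0, x) : Vt q)
        have hvF : v ∈ F := by
          rcases h v hv with ⟨l, hl⟩ | ⟨i, hi, hvi⟩
          · apply Finset.mem_union_left
            rw [← hl]
            exact Finset.mem_map_of_mem _ (Finset.mem_univ l)
          · apply Finset.mem_union_right
            have hi0 : i ≠ i0 := by
              rintro rfl
              apply hne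
              rw [hvi, Function.update_self]
            rw [Function.update_of_ne hi0] at hvi
            rw [hvi]
            exact Finset.mem_image_of_mem _ (Finset.mem_univ i)
        apply hx
        refine Set.mem_biUnion (x := S) ?_ hmem
        exact Set.mem_biUnion (x := v) hvF ⟨hS, hv⟩
      · apply hj S hS
        intro v hv
        rcases h v hv with h1 | ⟨i, hi, hvi⟩
        · exact Or.inl h1
        · right
          have hi0 : i ≠ i0 := by
            rintro rfl
            apply hmem
            rw [Function.update_self] at hvi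
            rw [← hvi]; exact hv
          refine ⟨i, ?_, ?_⟩
          · have : i.1 ≠ m := fun h => hi0 (Fin.ext h)
            omega
          · rw [hvi, Function.update_of_ne hi0]
  obtain ⟨j, hj⟩ := key q le_rfl
  refine ⟨j, fun S hS h => hj S hS (fun v hv => ?_)⟩
  rcases h v hv with h1 | ⟨i, hi⟩
  · exact Or.inl h1
  · exact Or.inr ⟨i, i.2, hi⟩

theorem Gfin_pert (hk : 2 ≤ k) (hε : ∀ n l, (ε n l).1 ≤ n)
    (hsurj : ∀ e : Fin k ↪ Vt q, ∃ n, ε n = e) [Finite W] (H : Finset W → Prop)
    (hD : ∀ b S, S.card = k → (D b S ↔ H S))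
    (ht : ∀ b, (H (Finset.univ.map (Function.Embedding.inl.trans (T b).toEmbedding)) ↔ b = false))
    (P : Set (Finset (Vt q))) (hP : P.Nonempty) (hPk : ∀ e ∈ P, e.card = k)
    (hPf : ∀ v, {e | e ∈ P ∧ v ∈ e}.Finite) :
    Copy k H (fun S => ¬ (Gfin ε T D s S ↔ S ∈ P)) := by
  classical
  have := Fintype.ofFinite W
  obtain ⟨e0, he0⟩ := hP
  have hcard0 := hPk e0 he0
  -- an enumeration of `e0`
  obtain ⟨e, he⟩ : ∃ e : Fin k ↪ Vt q, Finset.univ.map e = e0 := by
    let f : Fin k ≃ e0 := (Finset.equivFinOfCardEq hcard0).symm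
    refine ⟨f.toEmbedding.trans (Function.Embedding.subtype _), ?_⟩
    ext v
    simp only [Finset.mem_map, Finset.mem_univ, true_and, Function.Embedding.trans_apply,
      Equiv.coe_toEmbedding, Function.Embedding.subtype_apply]
    constructor
    · rintro ⟨l, rfl⟩
      exact (f l).2
    · intro hv
      exact ⟨f.symm ⟨v, hv⟩, by simp⟩
  obtain ⟨n, hn⟩ := hsurj e
  have hle : ∀ l, (e l).1 ≤ n := by intro l; rw [← hn]; exact hε n l
  obtain ⟨j, hj⟩ := exists_clones hk n e P hPk hPf
  set b := bst ε T D s n with hb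
  -- the embedding
  let g : Fin k ⊕ Fin q → Vt q := Sum.elim e (fun i => (n + 1, i, j i))
  have hg : Function.Injective g := by
    rintro (x | x) (y | y) hxy
    · exact congrArg _ (e.injective hxy)
    · exfalso
      have h1 := congrArg Prod.fst hxy
      have h2 := hle x
      simp only [g, Sum.elim_inl, Sum.elim_inr] at h1
      omega
    · exfalso
      have h1 := congrArg Prod.fst hxy
      have h2 := hle y
      simp only [g, Sum.elim_inl, Sum.elim_inr] at h1
      omega
    · simp only [g, Sum.elim_inr, Prod.mk.injEq] at hxy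
      rw [hxy.2.1]
  let φ : W ↪ Vt q := (T b).symm.toEmbedding.trans ⟨g, hg⟩
  have hφ : ∀ x, φ (T b x) = g x := by intro x; simp [φ]
  have hpos : ∀ w, T b (posF (n + 1) (ε n) (φ w)) = w := by
    intro w
    obtain ⟨x, rfl⟩ := (T b).surjective w
    rw [hφ]
    rcases x with l | i
    · have : (e l).1 ≠ n + 1 := by have := hle l; omega
      simp only [g, Sum.elim_inl]
      rw [hn, posF_e l this]
    · have h1 : posF (n + 1) (ε n) (g (Sum.inr i)) = Sum.inr i := posF_top rfl
      rw [h1]
  have hout : ∀ w, ¬ outF (n + 1) (ε n) (φ w) := by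
    intro w
    obtain ⟨x, rfl⟩ := (T b).surjective w
    rw [hφ]
    rintro ⟨h1, h2⟩
    rcases x with l | i
    · exact h2 l (by rw [hn]; rfl)
    · exact h1 rfl
  refine ⟨φ, fun S hS => ?_⟩
  by_cases hSt : S = Finset.univ.map (Function.Embedding.inl.trans (T b).toEmbedding)
  · have h1 : S.map φ = e0 := by
      rw [hSt, Finset.map_map, ← he]
      congr 1
      ext1 l
      simp only [Function.Embedding.trans_apply, Equiv.coe_toEmbedding,
        Function.Embedding.inl_apply]
      rw [hφ]
      rfl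
    rw [h1, hSt, ht b]
    have h2 : Gfin ε T D s e0 ↔ b = true := by
      rw [hb, ← he, ← hn]
      unfold bst
      simp
    simp only [h2, he0, iff_true, Bool.not_eq_true]
  · -- `S` contains a new type
    have hnew : ∃ i, T b (Sum.inr i) ∈ S := by
      by_contra hcon
      push Not at hcon
      apply hSt
      apply Finset.eq_of_subset_of_card_le
      · intro w hw
        obtain ⟨x, rfl⟩ := (T b).surjective w
        rcases x with l | i
        · exact Finset.mem_map.2 ⟨l, Finset.mem_univ l, rfl⟩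
        · exact absurd hw (hcon i)
      · rw [Finset.card_map, hS]; simp
    obtain ⟨i, hi⟩ := hnew
    have hnot : S.map φ ∉ P := by
      intro hmem
      have h1 := hj _ hmem (by
        intro v hv
        obtain ⟨w, hw, rfl⟩ := Finset.mem_map.1 hv
        obtain ⟨x, rfl⟩ := (T b).surjective w
        rw [hφ]
        rcases x with l | i
        · exact Or.inl ⟨l, rfl⟩
        · exact Or.inr ⟨i, rfl⟩)
      obtain ⟨l, hl⟩ := h1 (φ (T b (Sum.inr i))) (Finset.mem_map_of_mem _ hi)
      rw [hφ] at hl
      have h2 := congrArg Prod.fst hl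
      have h3 := hle l
      simp only [g, Sum.elim_inr] at h2
      omega
    have hlev : lev (S.map φ) = n + 1 := by
      apply le_antisymm
      · apply Finset.sup_le
        intro v hv
        obtain ⟨w, hw, rfl⟩ := Finset.mem_map.1 hv
        obtain ⟨x, rfl⟩ := (T b).surjective w
        rw [hφ]
        rcases x with l | i
        · have := hle l
          simp only [g, Sum.elim_inl]
          omega
        · simp only [g, Sum.elim_inr]
          exact le_rfl
      · have h1 : (φ (T b (Sum.inr i))).1 = n + 1 := by rw [hφ]; rfl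
        rw [← h1]
        exact Finset.le_sup (f := fun v : Vt q => v.1) (Finset.mem_map_of_mem φ hi)
    simp only [hnot, iff_false, not_not]
    rw [Gfin_top ε T D s hε n _ hlev, ← hb]
    unfold stat
    have h1 : ¬ ∃ v ∈ S.map φ, outF (n + 1) (ε n) v := by
      rintro ⟨v, hv, hv'⟩
      obtain ⟨w, hw, rfl⟩ := Finset.mem_map.1 hv
      exact hout w hv'
    have h2 : ∀ v ∈ S.map φ, ¬ outF (n + 1) (ε n) v := fun v hv hv' => h1 ⟨v, hv, hv'⟩
    have h3 : (S.map φ).image (fun v => T b (posF (n + 1) (ε n) v)) = S := by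
      rw [Finset.map_eq_image, Finset.image_image]
      have h4 : ((fun v => T b (posF (n + 1) (ε n) v)) ∘ φ) = id := by
        funext w
        exact hpos w
      rw [h4, Finset.image_id]
    constructor
    · intro h
      refine Or.inr ⟨h2, ?_⟩
      rw [h3, hD b S hS]
      exact h
    · rintro (h | h)
      · exact absurd h.1 h1
      · have h4 := h.2
        rw [h3, hD b S hS] at h4
        exact h4

end

/-- The enumeration of the tasks. -/
theorem exists_tasks (k q : ℕ) (hq : 0 < q) :
    ∃ ε : ℕ → Fin k ↪ Vt q, (∀ n l, (ε n l).1 ≤ n) ∧ ∀ e : Fin k ↪ Vt q, ∃ n, ε n = e := by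
  classical
  have : NeZero q := ⟨hq.ne'⟩
  let e0 : Fin k ↪ Vt q := ⟨fun l => (0, 0, l.1), fun x y h => by
    simp only [Prod.mk.injEq, true_and] at h
    exact Fin.ext h⟩
  have : Nonempty (Fin k ↪ Vt q) := ⟨e0⟩
  have : Countable (Fin k ↪ Vt q) :=
    Function.Injective.countable (f := fun e : Fin k ↪ Vt q => (e : Fin k → Vt q))
      DFunLike.coe_injective
  obtain ⟨f, hf⟩ := exists_surjective_nat (Fin k ↪ Vt q)
  refine ⟨fun n => if ∀ l, (f (Nat.unpair n).1 l).1 ≤ n then f (Nat.unpair n).1 else e0, ?_, ?_⟩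
  · intro n l
    beta_reduce
    split_ifs with h
    · exact h l
    · exact Nat.zero_le n
  · intro e
    obtain ⟨a, ha⟩ := hf e
    let m := Finset.univ.sup (fun l => (e l).1)
    refine ⟨Nat.pair a m, ?_⟩
    simp only [Nat.unpair_pair]
    rw [ha, if_pos]
    intro l
    calc (e l).1 ≤ m := Finset.le_sup (f := fun l => (e l).1) (Finset.mem_univ l)
      _ ≤ Nat.pair a m := Nat.right_le_pair a m

theorem framework {W : Type} [Finite W] {k q : ℕ} (hk : 2 ≤ k) (hq : 0 < q) (H : Finset W → Prop)
    (T : Bool → (Fin k ⊕ Fin q ≃ W)) (D : Bool → Finset W → Prop) (s : Bool → Prop)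
    (hD : ∀ b S, S.card = k → (D b S ↔ H S))
    (ht : ∀ b, (H (Finset.univ.map (Function.Embedding.inl.trans (T b).toEmbedding)) ↔ b = false))
    {Ws : Type} [Finite Ws] (Hs : Finset Ws → Prop) (hc : Copy k Hs H)
    (hne : ∃ S, S.card = k ∧ Hs S)
    (hno : ∀ b : Bool, NoCopy k q Hs (T b) (D b) (s b) (b = true)) :
    Sat k H ℕ := by
  have : NeZero q := ⟨hq.ne'⟩
  obtain ⟨ε, hε, hsurj⟩ := exists_tasks k q hq
  have h : Sat k H (Vt q) := by
    refine ⟨Gfin ε T D s, fun h => ?_, ?_⟩
    · exact Gfin_free ε T D s hε Hs hne hno (hc.trans h)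
    · intro P hP hPk hPf
      exact Gfin_pert ε T D s hk hε hsurj H hD ht P hP hPk hPf
  have : Denumerable (Vt q) := by
    have : Infinite (Vt q) := inferInstance
    exact Denumerable.ofEncodableOfInfinite (Vt q)
  exact h.equivV (Denumerable.eqv (Vt q))

end Pool.Agent.IndSat
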