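import Mathlib
import Pool.Agent.MP_9095a7_co.Build2

set_option autoImplicit false

namespace Pool.Agent.IndSat

theorem no_toggle {W : Type} [Finite W] (k : ℕ) (H : Finset W → Prop) (t : Finset W)
    (ht : t.card = k) (ψ : W ↪ W)
    (h : ∀ S : Finset W, S.card = k → (H S ↔ ¬ (H (S.map ψ) ↔ S.map ψ = t))) : False := by
  classical
  have := Fintype.ofFinite W
  let A := (Finset.powersetCard k (Finset.univ : Finset W)).filter H
  let B := (Finset.powersetCard k (Finset.univ : Finset W)).filter (fun S => ¬ (H S ↔ S = t))
  have hsurj : Function.Surjective ψ := Finite.injective_iff_surjective.1 ψ.injective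
  have hAB : A.card = B.card := by
    apply Finset.card_bij (fun S _ => S.map ψ)
    · intro S hS
      simp only [A, B, Finset.mem_filter, Finset.mem_powersetCard_univ] at hS ⊢
      exact ⟨by rw [Finset.card_map]; exact hS.1, (h S hS.1).1 hS.2⟩
    · intro S _ S' _ hSS
      exact Finset.map_injective ψ hSS
    · intro S hS
      simp only [B, Finset.mem_filter, Finset.mem_powersetCard_univ] at hS
      obtain ⟨S', hS'⟩ : ∃ S' : Finset W, S'.map ψ = S := by
        refine ⟨Finset.univ.filter (fun x => ψ x ∈ S), ?_⟩
        ext y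
        obtain ⟨x, rfl⟩ := hsurj y
        simp
      refine ⟨S', ?_, hS'⟩
      have hc : S'.card = k := by rw [← hS.1, ← hS', Finset.card_map]
      simp only [A, Finset.mem_filter, Finset.mem_powersetCard_univ]
      refine ⟨hc, (h S' hc).2 ?_⟩
      rw [hS']
      exact hS.2
  by_cases hHt : H t
  · have hsub : B ⊂ A := by
      rw [Finset.ssubset_iff_of_subset]
      · refine ⟨t, ?_, ?_⟩
        · simp [A, ht, hHt]
        · simp [B, hHt]
      · intro S hS
        simp only [A, B, Finset.mem_filter] at hS ⊢
        refine ⟨hS.1, ?_⟩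
        by_contra hc
        apply hS.2
        constructor
        · intro h1; exact absurd h1 hc
        · rintro rfl; exact absurd hHt hc
    have := Finset.card_lt_card hsub
    omega
  · have hsub : A ⊂ B := by
      rw [Finset.ssubset_iff_of_subset]
      · refine ⟨t, ?_, ?_⟩
        · simp [B, ht, hHt]
        · simp [A, hHt]
      · intro S hS
        simp only [A, B, Finset.mem_filter] at hS ⊢
        refine ⟨hS.1, ?_⟩
        intro hc
        have := hc.1 hS.2
        rw [this] at hS
        exact hHt hS.2
    have := Finset.card_lt_card hsub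
    omega

theorem exists_T {W : Type} [Fintype W] (k : ℕ) (t : Finset W) (ht : t.card = k) :
    ∃ T : Fin k ⊕ Fin (Fintype.card W - k) ≃ W,
      Finset.univ.map (Function.Embedding.inl.trans T.toEmbedding) = t := by
  classical
  have h1 : Fintype.card {x // x ∈ t} = k := by simp [ht]
  have h2 : Fintype.card {x // ¬ x ∈ t} = Fintype.card W - k := by
    rw [Fintype.card_subtype_compl, Fintype.card_coe, ht]
  let e1 : Fin k ≃ {x // x ∈ t} := (Fintype.equivFinOfCardEq h1).symm
  let e2 : Fin (Fintype.card W - k) ≃ {x // ¬ x ∈ t} := (Fintype.equivFinOfCardEq h2).symm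
  refine ⟨(Equiv.sumCongr e1 e2).trans (Equiv.sumCompl (fun x => x ∈ t)), ?_⟩
  apply Finset.eq_of_subset_of_card_le
  · intro x hx
    obtain ⟨l, -, rfl⟩ := Finset.mem_map.1 hx
    simp only [Function.Embedding.trans_apply, Function.Embedding.inl_apply,
      Equiv.coe_toEmbedding, Equiv.trans_apply, Equiv.sumCongr_apply, Sum.map_inl,
      Equiv.sumCompl_apply_inl]
    exact (e1 l).2
  · rw [Finset.card_map, ht]; simp

theorem mem_t {W : Type} {k q : ℕ} {T : Fin k ⊕ Fin q ≃ W} {t : Finset W}
    (hT : Finset.univ.map (Function.Embedding.inl.trans T.toEmbedding) = t) (x : Fin k ⊕ Fin q) :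
    T x ∈ t ↔ ∃ l, x = Sum.inl l := by
  rw [← hT]
  constructor
  · intro h
    obtain ⟨l, -, hl⟩ := Finset.mem_map.1 h
    exact ⟨l, (T.injective hl).symm⟩
  · rintro ⟨l, rfl⟩
    exact Finset.mem_map.2 ⟨l, Finset.mem_univ l, rfl⟩

/-- If the type map is injective then there is no copy of the whole hypergraph. -/
theorem no_inj {W : Type} [Finite W] {k q : ℕ} {H : Finset W → Prop} {T : Fin k ⊕ Fin q ≃ W}
    {t : Finset W} (hT : Finset.univ.map (Function.Embedding.inl.trans T.toEmbedding) = t)
    {D : Finset W → Prop} (hD : ∀ S, S.card = k → (D S ↔ H S)) {b : Prop} (hb : H t ↔ ¬ b)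
    (p : W → Fin k ⊕ Fin q) (hp : Function.Injective p)
    (h3 : ∀ S : Finset W, S.card = k → (∃ v ∈ S, ∃ i, p v = Sum.inr i) →
      (H S ↔ D (@Finset.image _ _ (Classical.decEq W) (fun v => T (p v)) S)))
    (h4 : ∀ S : Finset W, S.card = k → (∀ v ∈ S, ∃ l, p v = Sum.inl l) → (H S ↔ b)) :
    False := by
  classical
  have htc : t.card = k := by rw [← hT, Finset.card_map]; simp
  let ψ : W ↪ W := ⟨fun v => T (p v), fun x y h => hp (T.injective h)⟩
  apply no_toggle k H t htc ψ
  intro S hS
  by_cases hnew : ∃ v ∈ S, ∃ i, p v = Sum.inr i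
  · have h5 : S.map ψ ≠ t := by
      intro h
      obtain ⟨v, hv, i, hi⟩ := hnew
      have h6 : ψ v ∈ t := by rw [← h]; exact Finset.mem_map_of_mem ψ hv
      obtain ⟨l, hl⟩ := (mem_t hT (p v)).1 h6
      rw [hi] at hl
      cases hl
    rw [h3 S hS hnew]
    have h7 : @Finset.image _ _ (Classical.decEq W) (fun v => T (p v)) S = S.map ψ := by
      ext w
      simp only [Finset.mem_image, Finset.mem_map]
      rfl
    rw [h7, hD _ (by rw [Finset.card_map]; exact hS)]
    simp [h5]
  · have hall : ∀ v ∈ S, ∃ l, p v = Sum.inl l := by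
      intro v hv
      rcases hpv : p v with l | i
      · exact ⟨l, rfl⟩
      · exact absurd ⟨v, hv, i, hpv⟩ hnew
    have h5 : S.map ψ = t := by
      apply Finset.eq_of_subset_of_card_le
      · intro x hx
        obtain ⟨v, hv, rfl⟩ := Finset.mem_map.1 hx
        exact (mem_t hT (p v)).2 (hall v hv)
      · rw [Finset.card_map, hS, htc]
    rw [h4 S hS hall, h5, hb]
    simp

theorem sat_of_pairs {W : Type} [Finite W] (k : ℕ) (hk : 2 ≤ k) (H : Finset W → Prop)
    (hedge : ∃ S, S.card = k ∧ H S) (hnon : ∃ S, S.card = k ∧ ¬ H S)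
    (hpairs : ∀ u v, u ≠ v → ∃ S : Finset W, S.card = k ∧ u ∈ S ∧ v ∈ S ∧ H S) :
    Sat k H ℕ := by
  classical
  have := Fintype.ofFinite W
  have hq : 0 < Fintype.card W - k := by
    obtain ⟨S, hS, hS'⟩ := hedge
    obtain ⟨U, hU, hU'⟩ := hnon
    have h1 : S.card ≤ Fintype.card W := Finset.card_le_univ S
    rcases Nat.lt_or_ge k (Fintype.card W) with h | h
    · omega
    · exfalso
      have h2 : S = Finset.univ := Finset.eq_univ_of_card S (by omega)
      have h3 : U = Finset.univ := Finset.eq_univ_of_card U (by omega)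
      rw [h2] at hS'
      rw [h3] at hU'
      exact hU' hS'
  obtain ⟨t0, ht0, hH0⟩ := hedge
  obtain ⟨t1, ht1, hH1⟩ := hnon
  obtain ⟨T0, hT0⟩ := exists_T k t0 ht0
  obtain ⟨T1, hT1⟩ := exists_T k t1 ht1
  let T : Bool → (Fin k ⊕ Fin (Fintype.card W - k) ≃ W) := fun b => cond b T1 T0
  have main : ∀ (b : Bool) (t : Finset W), (H t ↔ ¬ (b = true)) →
      Finset.univ.map (Function.Embedding.inl.trans (T b).toEmbedding) = t →
      NoCopy k (Fintype.card W - k) H (T b) (fun S => S.card = k ∧ H S) False (b = true) := by
    intro b t hHt hTt out p hnew hinj h3 h4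
    obtain ⟨x, i, hx, hxi⟩ := hnew
    have hout : ∀ z, ¬ out z := by
      intro z hz
      have hxz : x ≠ z := by rintro rfl; exact hx hz
      obtain ⟨S, hS, hxS, hzS, hHS⟩ := hpairs x z hxz
      rcases (h3 S hS ⟨x, hxS, hx, i, hxi⟩).1 hHS with h | h
      · exact h.2
      · exact h.1 z hzS hz
    have hpinj : Function.Injective p := by
      intro u v huv
      by_contra hne
      rcases hpu : p u with l | i'
      · exact hne (hinj u v l (hout u) (hout v) hpu (by rw [← huv]; exact hpu))
      · obtain ⟨S, hS, huS, hvS, hHS⟩ := hpairs u v hne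
        rcases (h3 S hS ⟨u, huS, hout u, i', hpu⟩).1 hHS with h | h
        · exact h.2
        · have h5 := h.2.1
          have h6 : (S.image (fun v => (T b) (p v))).card < S.card := by
            have hle : (S.image (fun v => (T b) (p v))).card ≤ (S.erase v).card := by
              have : S.image (fun v => (T b) (p v)) = (S.erase v).image (fun v => (T b) (p v)) := by
                ext y
                simp only [Finset.mem_image, Finset.mem_erase]
                constructor
                · rintro ⟨w, hw, rfl⟩
                  by_cases hwv : w = v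
                  · exact ⟨u, ⟨hne, huS⟩, by rw [hwv, huv]⟩
                  · exact ⟨w, ⟨hwv, hw⟩, rfl⟩
                · rintro ⟨w, hw, rfl⟩
                  exact ⟨w, hw.2, rfl⟩
              rw [this]
              exact Finset.card_image_le
            have := Finset.card_erase_lt_of_mem hvS
            omega
          have h7 : (S.image (fun v => (T b) (p v))).card = k := by
            convert h5
          omega
    apply no_inj hTt (D := fun S => S.card = k ∧ H S) (fun S hS => by simp [hS]) hHt p hpinj
    · intro S hS ⟨v, hv, i', hi'⟩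
      rw [h3 S hS ⟨v, hv, hout v, i', hi'⟩]
      constructor
      · rintro (h | h)
        · exact absurd h.2 id
        · exact h.2
      · intro h
        exact Or.inr ⟨fun v _ => hout v, h⟩
    · intro S hS hall
      exact h4 S hS (fun v hv => ⟨hout v, hall v hv⟩)
  apply framework hk hq H T (fun _ S => S.card = k ∧ H S) (fun _ => False) (fun b S hS => by simp [hS])
    _ H (Copy.refl k H) ⟨t0, ht0, hH0⟩
  · intro b
    cases b
    · exact main false t0 (by simp [hH0]) hT0
    · exact main true t1 (by simp [hH1]) hT1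
  · intro b
    cases b
    · simp only [T, cond_false, hT0, hH0]
    · simp only [T, cond_true, hT1, hH1]; simp

end Pool.Agent.IndSat
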