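import Mathlib

set_option autoImplicit false

namespace Pool.Agent.IndSat

/-- Three distinct members of `t`. -/
def isT {W : Type} (t : W → Prop) (x y z : W) : Prop :=
  x ≠ y ∧ y ≠ z ∧ x ≠ z ∧ t x ∧ t y ∧ t z

theorem ternary {W : Type} [Finite W] (r : W → W → W → Prop)
    (hs1 : ∀ x y z, r x y z → r y x z) (hs2 : ∀ x y z, r x y z → r x z y)
    (t : W → Prop) (t1 t2 t3 : W) (h12 : t1 ≠ t2) (h23 : t2 ≠ t3) (h13 : t1 ≠ t3)
    (ht : ∀ x, t x ↔ x = t1 ∨ x = t2 ∨ x = t3)
    (hsing : ∀ τ, t τ → ∀ x, r x = r τ → x = τ) (ψ : W → W)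
    (h : ∀ x y z, r x y z ↔ ¬ (r (ψ x) (ψ y) (ψ z) ↔ isT t (ψ x) (ψ y) (ψ z))) : False := by
  classical
  have := Fintype.ofFinite W
  have : Nonempty W := ⟨t1⟩
  have claim1 : ∀ x y, r (ψ x) = r (ψ y) → r x = r y := by
    intro x y hxy
    by_cases hx : t (ψ x)
    · have h1 : ψ y = ψ x := hsing _ hx _ hxy.symm
      funext u v
      apply propext
      rw [h x u v, h y u v, h1]
    · by_cases hy : t (ψ y)
      · have h1 : ψ x = ψ y := hsing _ hy _ hxy
        exact absurd (h1 ▸ hy) hx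
      · funext u v
        apply propext
        rw [h x u v, h y u v, hxy]
        have h1 : ¬ isT t (ψ x) (ψ u) (ψ v) := fun h => hx h.2.2.2.1
        have h2 : ¬ isT t (ψ y) (ψ u) (ψ v) := fun h => hy h.2.2.2.1
        simp [h1, h2]
  -- representatives
  have hrepex : ∀ x, ∃ y, r y = r x := fun x => ⟨x, rfl⟩
  let rep : W → W := fun x => Classical.epsilon (fun y => r y = r x)
  have hrep : ∀ x, r (rep x) = r x := fun x => Classical.epsilon_spec (hrepex x)
  have hrep' : ∀ x y, r x = r y → rep x = rep y := by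
    intro x y hxy
    simp only [rep, hxy]
  have hrep2 : ∀ x y, rep x = rep y → r x = r y := by
    intro x y hxy
    rw [← hrep x, ← hrep y, hxy]
  have hreprep : ∀ x, rep (rep x) = rep x := fun x => hrep' _ _ (hrep x)
  have hrept : ∀ x, t x → rep x = x := fun x hx => hsing x hx _ (hrep x)
  have hrept' : ∀ x, t (rep x) → rep x = x := fun x hx => (hsing _ hx x (hrep x).symm).symm
  have htrep : ∀ x, t (rep x) ↔ t x := by
    intro x
    constructor
    · intro hx; rw [hrept' x hx] at hx; exact hx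
    · intro hx; rw [hrept x hx]; exact hx
  let R : Finset W := Finset.univ.image rep
  have hR : ∀ x ∈ R, rep x = x := by
    intro x hx
    obtain ⟨y, -, rfl⟩ := Finset.mem_image.1 hx
    exact hreprep y
  have hrepR : ∀ x, rep x ∈ R := fun x => Finset.mem_image_of_mem _ (Finset.mem_univ x)
  let ψ' : W → W := fun x => rep (ψ x)
  have hmaps : ∀ x ∈ R, ψ' x ∈ R := fun x _ => hrepR _
  have hinj : ∀ x ∈ R, ∀ y ∈ R, ψ' x = ψ' y → x = y := by
    intro x hx y hy hxy
    have h1 := claim1 x y (hrep2 _ _ hxy)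
    rw [← hR x hx, ← hR y hy]
    exact hrep' _ _ h1
  have hsurj : ∀ y ∈ R, ∃ x ∈ R, ψ' x = y := by
    have h1 : R.image ψ' = R := by
      apply Finset.eq_of_subset_of_card_le
      · intro y hy
        obtain ⟨x, hx, rfl⟩ := Finset.mem_image.1 hy
        exact hmaps x hx
      · exact (Finset.card_image_of_injOn (s := R) (f := ψ')
          (fun x hx y hy hxy => hinj x hx y hy hxy)).ge
    intro y hy
    rw [← h1] at hy
    obtain ⟨x, hx, hxy⟩ := Finset.mem_image.1 hy
    exact ⟨x, hx, hxy⟩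
  -- replacement
  have hrr : ∀ x y z, r (rep x) (rep y) (rep z) ↔ r x y z := by
    have e1 : ∀ x y z, r (rep x) y z ↔ r x y z := by
      intro x y z; rw [hrep]
    have e2 : ∀ x y z, r x y z ↔ r y x z := fun x y z => ⟨hs1 x y z, hs1 y x z⟩
    have e3 : ∀ x y z, r x y z ↔ r x z y := fun x y z => ⟨hs2 x y z, hs2 x z y⟩
    intro x y z
    rw [e1, e2, e1, e2, e3, e2, e1, e2, e3]
  have hTT : ∀ x y z, isT t (rep x) (rep y) (rep z) ↔ isT t x y z := by
    intro x y z
    constructor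
    · rintro ⟨a, b, c, d, e, f⟩
      rw [hrept' x d, hrept' y e] at a
      rw [hrept' y e, hrept' z f] at b
      rw [hrept' x d, hrept' z f] at c
      exact ⟨a, b, c, (htrep x).1 d, (htrep y).1 e, (htrep z).1 f⟩
    · rintro ⟨a, b, c, d, e, f⟩
      rw [hrept x d, hrept y e, hrept z f]
      exact ⟨a, b, c, d, e, f⟩
  have hmain : ∀ x y z, r x y z ↔ ¬ (r (ψ' x) (ψ' y) (ψ' z) ↔ isT t (ψ' x) (ψ' y) (ψ' z)) := by
    intro x y z
    simp only [ψ']
    rw [hrr, hTT]
    exact h x y z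
  let A : Finset (W × W × W) := (R ×ˢ R ×ˢ R).filter (fun p => r p.1 p.2.1 p.2.2)
  let B : Finset (W × W × W) :=
    (R ×ˢ R ×ˢ R).filter (fun p => ¬ (r p.1 p.2.1 p.2.2 ↔ isT t p.1 p.2.1 p.2.2))
  have hAB : A.card = B.card := by
    apply Finset.card_bij (fun p _ => (ψ' p.1, ψ' p.2.1, ψ' p.2.2))
    · rintro ⟨x, y, z⟩ hp
      simp only [A, B, Finset.mem_filter, Finset.mem_product] at hp ⊢
      obtain ⟨⟨hx, hy, hz⟩, hr⟩ := hp
      exact ⟨⟨hmaps x hx, hmaps y hy, hmaps z hz⟩, (hmain x y z).1 hr⟩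
    · rintro ⟨x, y, z⟩ hp ⟨x', y', z'⟩ hp' heq
      simp only [A, Finset.mem_filter, Finset.mem_product] at hp hp'
      simp only [Prod.mk.injEq] at heq
      obtain ⟨⟨hx, hy, hz⟩, -⟩ := hp
      obtain ⟨⟨hx', hy', hz'⟩, -⟩ := hp'
      rw [hinj x hx x' hx' heq.1, hinj y hy y' hy' heq.2.1, hinj z hz z' hz' heq.2.2]
    · rintro ⟨x, y, z⟩ hp
      simp only [B, Finset.mem_filter, Finset.mem_product] at hp
      obtain ⟨⟨hx, hy, hz⟩, hr⟩ := hp
      obtain ⟨x', hx', rfl⟩ := hsurj x hx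
      obtain ⟨y', hy', rfl⟩ := hsurj y hy
      obtain ⟨z', hz', rfl⟩ := hsurj z hz
      refine ⟨(x', y', z'), ?_, rfl⟩
      simp only [A, Finset.mem_filter, Finset.mem_product]
      exact ⟨⟨hx', hy', hz'⟩, (hmain x' y' z').2 hr⟩
  have ht1 : t t1 := (ht t1).2 (Or.inl rfl)
  have ht2 : t t2 := (ht t2).2 (Or.inr (Or.inl rfl))
  have ht3 : t t3 := (ht t3).2 (Or.inr (Or.inr rfl))
  have hTr : ∀ x y z, isT t x y z → (r x y z ↔ r t1 t2 t3) := by
    have e2 : ∀ x y z, r x y z ↔ r y x z := fun x y z => ⟨hs1 x y z, hs1 y x z⟩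
    have e3 : ∀ x y z, r x y z ↔ r x z y := fun x y z => ⟨hs2 x y z, hs2 x z y⟩
    rintro x y z ⟨a, b, c, d, e, f⟩
    rcases (ht x).1 d with rfl | rfl | rfl <;> rcases (ht y).1 e with rfl | rfl | rfl <;>
      rcases (ht z).1 f with rfl | rfl | rfl <;>
      first
        | exact absurd rfl a
        | exact absurd rfl b
        | exact absurd rfl c
        | exact Iff.rfl
        | exact e2 _ _ _
        | exact e3 _ _ _
        | exact (e2 _ _ _).trans (e3 _ _ _)
        | exact (e3 _ _ _).trans (e2 _ _ _)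
        | exact ((e2 _ _ _).trans (e3 _ _ _)).trans (e2 _ _ _)
  have hmemt : (t1, t2, t3) ∈ R ×ˢ R ×ˢ R := by
    simp only [Finset.mem_product]
    refine ⟨?_, ?_, ?_⟩
    · rw [← hrept t1 ht1]; exact hrepR _
    · rw [← hrept t2 ht2]; exact hrepR _
    · rw [← hrept t3 ht3]; exact hrepR _
  have hT0 : isT t t1 t2 t3 := ⟨h12, h23, h13, ht1, ht2, ht3⟩
  by_cases hr : r t1 t2 t3
  · have hsub : B ⊂ A := by
      rw [Finset.ssubset_iff_of_subset]
      · refine ⟨(t1, t2, t3), ?_, ?_⟩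
        · simp only [A, Finset.mem_filter]; exact ⟨hmemt, hr⟩
        · simp only [B, Finset.mem_filter, not_and, not_not]
          intro _; simp [hr, hT0]
      · rintro ⟨x, y, z⟩ hp
        simp only [A, B, Finset.mem_filter] at hp ⊢
        refine ⟨hp.1, ?_⟩
        by_contra hc
        apply hp.2
        constructor
        · intro h1; exact absurd h1 hc
        · intro h1; exact absurd ((hTr x y z h1).2 hr) hc
    have := Finset.card_lt_card hsub
    omega
  · have hsub : A ⊂ B := by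
      rw [Finset.ssubset_iff_of_subset]
      · refine ⟨(t1, t2, t3), ?_, ?_⟩
        · simp only [B, Finset.mem_filter]; refine ⟨hmemt, ?_⟩; simp [hr, hT0]
        · simp only [A, Finset.mem_filter, not_and]
          intro _; exact hr
      · rintro ⟨x, y, z⟩ hp
        simp only [A, B, Finset.mem_filter] at hp ⊢
        refine ⟨hp.1, ?_⟩
        intro hc
        exact hr ((hTr x y z (hc.1 hp.2)).1 hp.2)
    have := Finset.card_lt_card hsub
    omega

end Pool.Agent.IndSat
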