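import Mathlib
import Pool.Agent.MP_9095a7_co.Pairs
import Pool.Agent.MP_9095a7_co.Ternary

set_option autoImplicit false

namespace Pool.Agent.IndSat

open Classical in
/-- The set with the three given elements. -/
noncomputable def tri {W : Type} (x y z : W) : Finset W := {x, y, z}

theorem mem_tri {W : Type} {x y z w : W} : w ∈ tri x y z ↔ w = x ∨ w = y ∨ w = z := by
  classical
  simp [tri]

theorem card_tri {W : Type} {x y z : W} (h1 : x ≠ y) (h2 : y ≠ z) (h3 : x ≠ z) :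
    (tri x y z).card = 3 := by
  classical
  unfold tri
  rw [Finset.card_eq_three]
  exact ⟨x, y, z, h1, h3, h2, by congr!⟩

theorem tri_swap {W : Type} (x y z : W) : tri x y z = tri y x z := by
  ext w; simp only [mem_tri]; tauto

theorem tri_swap' {W : Type} (x y z : W) : tri x y z = tri x z y := by
  ext w; simp only [mem_tri]; tauto

theorem exists_tri {W : Type} {S : Finset W} (h : S.card = 3) :
    ∃ x y z, x ≠ y ∧ y ≠ z ∧ x ≠ z ∧ S = tri x y z := by
  classical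
  obtain ⟨x, y, z, h1, h2, h3, h4⟩ := Finset.card_eq_three.1 h
  refine ⟨x, y, z, h1, h3, h2, ?_⟩
  ext w
  rw [h4, mem_tri]
  simp

theorem exists_tri_of_mem {W : Type} {S : Finset W} (h : S.card = 3) {x : W} (hx : x ∈ S) :
    ∃ y z, x ≠ y ∧ y ≠ z ∧ x ≠ z ∧ S = tri x y z := by
  obtain ⟨a, b, c, h1, h2, h3, rfl⟩ := exists_tri h
  rw [mem_tri] at hx
  rcases hx with rfl | rfl | rfl
  · exact ⟨b, c, h1, h2, h3, rfl⟩
  · exact ⟨a, c, h1.symm, h3, h2, tri_swap _ _ _⟩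
  · exact ⟨a, b, h3.symm, h1, h2.symm, by rw [tri_swap' a b x, tri_swap a x b]⟩

theorem card_tri_iff {W : Type} (x y z : W) : (tri x y z).card = 3 ↔ x ≠ y ∧ y ≠ z ∧ x ≠ z := by
  classical
  constructor
  · intro h
    refine ⟨?_, ?_, ?_⟩
    · rintro rfl
      have : tri x x z = {x, z} := by ext w; simp [mem_tri]
      rw [this] at h
      have := Finset.card_le_two (a := x) (b := z)
      omega
    · rintro rfl
      have : tri x y y = {x, y} := by ext w; simp [mem_tri]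
      rw [this] at h
      have := Finset.card_le_two (a := x) (b := y)
      omega
    · rintro rfl
      have : tri x y x = {x, y} := by ext w; simp [mem_tri]; tauto
      rw [this] at h
      have := Finset.card_le_two (a := x) (b := y)
      omega
  · rintro ⟨h1, h2, h3⟩
    exact card_tri h1 h2 h3

/-- The ternary relation of a hypergraph. -/
def Rel {W : Type} (H : Finset W → Prop) (x y z : W) : Prop :=
  x ≠ y ∧ y ≠ z ∧ x ≠ z ∧ H (tri x y z)

theorem Rel.swap {W : Type} {H : Finset W → Prop} {x y z : W} (h : Rel H x y z) :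
    Rel H y x z := by
  refine ⟨h.1.symm, h.2.2.1, h.2.1, ?_⟩
  rw [tri_swap]; exact h.2.2.2

theorem Rel.swap' {W : Type} {H : Finset W → Prop} {x y z : W} (h : Rel H x y z) :
    Rel H x z y := by
  refine ⟨h.2.2.1, h.2.1.symm, h.1, ?_⟩
  rw [tri_swap']; exact h.2.2.2

/-- Attaching data for the status `b`. -/
def Data {W : Type} [Fintype W] (H : Finset W → Prop) (b : Prop) : Prop :=
  ∃ (T : Fin 3 ⊕ Fin (Fintype.card W - 3) ≃ W) (D : Finset W → Prop) (s : Prop),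
    (∀ S, S.card = 3 → (D S ↔ H S)) ∧
    (H (Finset.univ.map (Function.Embedding.inl.trans T.toEmbedding)) ↔ ¬ b) ∧
    NoCopy 3 (Fintype.card W - 3) H T D s b

theorem NoCopy.compl {W Ws : Type} {k q : ℕ} {Hs : Finset Ws → Prop} {T : Fin k ⊕ Fin q ≃ W}
    {D : Finset W → Prop} {s b : Prop}
    (h : NoCopy k q (fun S => ¬ Hs S) T (fun S => ¬ D S) (¬ s) (¬ b)) :
    NoCopy k q Hs T D s b := by
  intro out p h1 h2 h3 h4
  apply h out p h1 h2
  · intro S hS hn
    beta_reduce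
    rw [h3 S hS hn]
    by_cases ho : ∃ v ∈ S, out v
    · have ho' : ¬ ∀ v ∈ S, ¬ out v := by
        obtain ⟨v, hv, hv'⟩ := ho
        intro h; exact h v hv hv'
      rw [eq_true ho, eq_false ho']
      simp
    · have ho' : ∀ v ∈ S, ¬ out v := fun v hv hv' => ho ⟨v, hv, hv'⟩
      simp only [ho, false_and, false_or]
      tauto
  · intro S hS hn
    beta_reduce
    rw [h4 S hS hn]

theorem Data.compl {W : Type} [Fintype W] {H : Finset W → Prop} {b : Prop}
    (h : Data (fun S => ¬ H S) (¬ b)) : Data H b := by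
  obtain ⟨T, D, s, h1, h2, h3⟩ := h
  refine ⟨T, fun S => ¬ D S, ¬ s, ?_, ?_, ?_⟩
  · intro S hS
    beta_reduce
    rw [h1 S hS, not_not]
  · tauto
  · apply NoCopy.compl
    simp only [not_not]
    exact h3

theorem sat_of_data {W : Type} [Fintype W] {H : Finset W → Prop}
    (hedge : ∃ S, S.card = 3 ∧ H S) (hnon : ∃ S, S.card = 3 ∧ ¬ H S)
    (h0 : Data H False) (h1 : Data H True) : Sat 3 H ℕ := by
  have hq : 0 < Fintype.card W - 3 := by
    obtain ⟨S, hS, hS'⟩ := hedge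
    obtain ⟨U, hU, hU'⟩ := hnon
    have h1 : S.card ≤ Fintype.card W := Finset.card_le_univ S
    rcases Nat.lt_or_ge 3 (Fintype.card W) with h | h
    · omega
    · exfalso
      have h2 : S = Finset.univ := Finset.eq_univ_of_card S (by omega)
      have h3 : U = Finset.univ := Finset.eq_univ_of_card U (by omega)
      rw [h2] at hS'
      rw [h3] at hU'
      exact hU' hS'
  obtain ⟨T0, D0, s0, a0, b0, c0⟩ := h0
  obtain ⟨T1, D1, s1, a1, b1, c1⟩ := h1
  apply framework (by norm_num) hq H (fun b => cond b T1 T0) (fun b => cond b D1 D0)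
    (fun b => cond b s1 s0) _ _ H (Copy.refl 3 H) hedge
  · intro b
    cases b
    · simpa using c0
    · simpa using c1
  · intro b
    cases b
    · simpa using a0
    · simpa using a1
  · intro b
    cases b
    · simpa using b0
    · simpa using b1

open Classical in
/-- Reformulation of `NoCopy` for three-uniform hypergraphs. -/
theorem noCopy3 {W Ws : Type} {q : ℕ} {H : Finset Ws → Prop} {T : Fin 3 ⊕ Fin q ≃ W}
    {D : Finset W → Prop} {s b : Prop}
    (h : ∀ (out : Ws → Prop) (p : Ws → Fin 3 ⊕ Fin q),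
      (∃ v i, ¬ out v ∧ p v = Sum.inr i) →
      (∀ v w l, ¬ out v → ¬ out w → p v = Sum.inl l → p w = Sum.inl l → v = w) →
      (∀ x y z, x ≠ y → y ≠ z → x ≠ z → (¬ out x ∧ ∃ i, p x = Sum.inr i) →
        (H (tri x y z) ↔ (((out y ∨ out z) ∧ s) ∨
          ((¬ out y ∧ ¬ out z) ∧ D (tri (T (p x)) (T (p y)) (T (p z))))))) →
      (∀ x y z, x ≠ y → y ≠ z → x ≠ z → (¬ out x ∧ ∃ l, p x = Sum.inl l) →
        (¬ out y ∧ ∃ l, p y = Sum.inl l) → (¬ out z ∧ ∃ l, p z = Sum.inl l) →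
        (H (tri x y z) ↔ b)) → False) :
    NoCopy 3 q H T D s b := by
  intro out p h1 h2 h3 h4
  apply h out p h1 h2
  · intro x y z hxy hyz hxz hx
    rw [h3 _ (card_tri hxy hyz hxz) ⟨x, mem_tri.2 (Or.inl rfl), hx.1, hx.2⟩]
    have e1 : (∃ v ∈ tri x y z, out v) ↔ out y ∨ out z := by
      constructor
      · rintro ⟨v, hv, hv'⟩
        rcases mem_tri.1 hv with rfl | rfl | rfl
        · exact absurd hv' hx.1
        · exact Or.inl hv'
        · exact Or.inr hv'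
      · rintro (h | h)
        · exact ⟨y, mem_tri.2 (Or.inr (Or.inl rfl)), h⟩
        · exact ⟨z, mem_tri.2 (Or.inr (Or.inr rfl)), h⟩
    have e2 : (∀ v ∈ tri x y z, ¬ out v) ↔ (¬ out y ∧ ¬ out z) := by
      constructor
      · intro h
        exact ⟨h y (mem_tri.2 (Or.inr (Or.inl rfl))), h z (mem_tri.2 (Or.inr (Or.inr rfl)))⟩
      · rintro ⟨h, h'⟩ v hv
        rcases mem_tri.1 hv with rfl | rfl | rfl
        · exact hx.1
        · exact h
        · exact h'
    have e3 : (tri x y z).image (fun v => T (p v)) = tri (T (p x)) (T (p y)) (T (p z)) := by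
      ext w
      simp only [Finset.mem_image, mem_tri]
      constructor
      · rintro ⟨v, rfl | rfl | rfl, rfl⟩ <;> simp
      · rintro (rfl | rfl | rfl)
        · exact ⟨x, by simp, rfl⟩
        · exact ⟨y, by simp, rfl⟩
        · exact ⟨z, by simp, rfl⟩
    rw [e1, e2, e3]
  · intro x y z hxy hyz hxz hx hy hz
    apply h4 _ (card_tri hxy hyz hxz)
    intro v hv
    rcases mem_tri.1 hv with rfl | rfl | rfl
    · exact hx
    · exact hy
    · exact hz

/-- The part of the copy condition without outside vertices. -/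
def NoB {W : Type} {q : ℕ} (H : Finset W → Prop) (T : Fin 3 ⊕ Fin q ≃ W)
    (D : Finset W → Prop) (b : Prop) : Prop :=
  ∀ (p : W → Fin 3 ⊕ Fin q),
      (∃ v i, p v = Sum.inr i) →
      (∀ v w l, p v = Sum.inl l → p w = Sum.inl l → v = w) →
      (∀ x y z, x ≠ y → y ≠ z → x ≠ z → (∃ i, p x = Sum.inr i) →
        (H (tri x y z) ↔ D (tri (T (p x)) (T (p y)) (T (p z))))) →
      (∀ x y z, x ≠ y → y ≠ z → x ≠ z → (∃ l, p x = Sum.inl l) →
        (∃ l, p y = Sum.inl l) → (∃ l, p z = Sum.inl l) →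
        (H (tri x y z) ↔ b)) → False

/-- The part of the copy condition with outside vertices. -/
def NoZ {W : Type} {q : ℕ} (H : Finset W → Prop) (T : Fin 3 ⊕ Fin q ≃ W)
    (D : Finset W → Prop) (s b : Prop) : Prop :=
  ∀ (out : W → Prop) (p : W → Fin 3 ⊕ Fin q) (x0 z0 : W),
      out z0 → (¬ out x0 ∧ ∃ i, p x0 = Sum.inr i) →
      (∀ v w l, ¬ out v → ¬ out w → p v = Sum.inl l → p w = Sum.inl l → v = w) →
      (∀ x y z, x ≠ y → y ≠ z → x ≠ z → (¬ out x ∧ ∃ i, p x = Sum.inr i) →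
        (H (tri x y z) ↔ (((out y ∨ out z) ∧ s) ∨
          ((¬ out y ∧ ¬ out z) ∧ D (tri (T (p x)) (T (p y)) (T (p z))))))) →
      (∀ x y z, x ≠ y → y ≠ z → x ≠ z → (¬ out x ∧ ∃ l, p x = Sum.inl l) →
        (¬ out y ∧ ∃ l, p y = Sum.inl l) → (¬ out z ∧ ∃ l, p z = Sum.inl l) →
        (H (tri x y z) ↔ b)) → False

theorem noCopy_of {W : Type} {q : ℕ} {H : Finset W → Prop} {T : Fin 3 ⊕ Fin q ≃ W}
    {D : Finset W → Prop} {s b : Prop} (hB : NoB H T D b) (hZ : NoZ H T D s b) :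
    NoCopy 3 q H T D s b := by
  apply noCopy3
  intro out p h1 h2 h3 h4
  by_cases hout : ∃ z, out z
  · obtain ⟨z0, hz0⟩ := hout
    obtain ⟨x0, i, hx0, hi⟩ := h1
    exact hZ out p x0 z0 hz0 ⟨hx0, i, hi⟩ h2 h3 h4
  · have ho : ∀ z, ¬ out z := fun z hz => hout ⟨z, hz⟩
    obtain ⟨x0, i, hx0, hi⟩ := h1
    apply hB p ⟨x0, i, hi⟩ (fun v w l hv hw => h2 v w l (ho v) (ho w) hv hw)
    · intro x y z hxy hyz hxz hx
      rw [h3 x y z hxy hyz hxz ⟨ho x, hx⟩]
      simp [ho]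
    · intro x y z hxy hyz hxz hx hy hz
      exact h4 x y z hxy hyz hxz ⟨ho x, hx⟩ ⟨ho y, hy⟩ ⟨ho z, hz⟩

/-- Label `0` for sets with repeated types. -/
theorem noB_zero {W : Type} [Finite W] {q : ℕ} {H : Finset W → Prop} {T : Fin 3 ⊕ Fin q ≃ W}
    {b : Prop} {t1 t2 t3 : W} (h12 : t1 ≠ t2) (h23 : t2 ≠ t3) (h13 : t1 ≠ t3)
    (hT : Finset.univ.map (Function.Embedding.inl.trans T.toEmbedding) = tri t1 t2 t3)
    (hb : H (tri t1 t2 t3) ↔ ¬ b)
    (hsing : ∀ τ, (τ = t1 ∨ τ = t2 ∨ τ = t3) → ∀ x, Rel H x = Rel H τ → x = τ) :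
    NoB H T (fun S => S.card = 3 ∧ H S) b := by
  intro p h1 h2 h3 h4
  have hmem : ∀ x : Fin 3 ⊕ Fin q, (T x = t1 ∨ T x = t2 ∨ T x = t3) ↔ ∃ l, x = Sum.inl l := by
    intro x
    rw [← mem_tri]
    exact mem_t hT x
  apply ternary (Rel H) (fun x y z h => h.swap) (fun x y z h => h.swap')
    (fun x => x = t1 ∨ x = t2 ∨ x = t3) t1 t2 t3 h12 h23 h13 (fun x => Iff.rfl) hsing
    (fun v => T (p v))
  intro x y z
  by_cases hd : x ≠ y ∧ y ≠ z ∧ x ≠ z
  · obtain ⟨hxy, hyz, hxz⟩ := hd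
    have hR : Rel H x y z ↔ H (tri x y z) :=
      ⟨fun h => h.2.2.2, fun h => ⟨hxy, hyz, hxz, h⟩⟩
    rw [hR]
    -- a general fact for a new vertex
    have hnew : ∀ x y z, x ≠ y → y ≠ z → x ≠ z → (∃ i, p x = Sum.inr i) →
        (H (tri x y z) ↔ ¬ (Rel H (T (p x)) (T (p y)) (T (p z)) ↔
          isT (fun x => x = t1 ∨ x = t2 ∨ x = t3) (T (p x)) (T (p y)) (T (p z)))) := by
      intro x y z hxy hyz hxz hx
      rw [h3 x y z hxy hyz hxz hx]
      have h5 : ¬ isT (fun x => x = t1 ∨ x = t2 ∨ x = t3) (T (p x)) (T (p y)) (T (p z)) := by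
        rintro ⟨-, -, -, h6, -, -⟩
        obtain ⟨l, hl⟩ := (hmem _).1 h6
        obtain ⟨i, hi⟩ := hx
        rw [hi] at hl
        cases hl
      have h7 : (tri (T (p x)) (T (p y)) (T (p z))).card = 3 ∧ H (tri (T (p x)) (T (p y)) (T (p z)))
          ↔ Rel H (T (p x)) (T (p y)) (T (p z)) := by
        rw [card_tri_iff]
        exact ⟨fun h => ⟨h.1.1, h.1.2.1, h.1.2.2, h.2⟩, fun h => ⟨⟨h.1, h.2.1, h.2.2.1⟩, h.2.2.2⟩⟩
      beta_reduce
      rw [h7]
      simp [h5]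
    have hRs : ∀ x y z, Rel H x y z ↔ Rel H y x z := fun x y z => ⟨Rel.swap, Rel.swap⟩
    have hRs' : ∀ x y z, Rel H x y z ↔ Rel H x z y := fun x y z => ⟨Rel.swap', Rel.swap'⟩
    have hTs : ∀ t : W → Prop, ∀ x y z, isT t x y z ↔ isT t y x z := fun t x y z =>
      ⟨fun ⟨a, b, c, d, e, f⟩ => ⟨a.symm, c, b, e, d, f⟩,
        fun ⟨a, b, c, d, e, f⟩ => ⟨a.symm, c, b, e, d, f⟩⟩
    have hTs' : ∀ t : W → Prop, ∀ x y z, isT t x y z ↔ isT t x z y := fun t x y z =>
      ⟨fun ⟨a, b, c, d, e, f⟩ => ⟨c, b.symm, a, d, f, e⟩,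
        fun ⟨a, b, c, d, e, f⟩ => ⟨c, b.symm, a, d, f, e⟩⟩
    by_cases hx : ∃ i, p x = Sum.inr i
    · exact hnew x y z hxy hyz hxz hx
    by_cases hy : ∃ i, p y = Sum.inr i
    · rw [tri_swap, hRs, hTs]
      exact hnew y x z hxy.symm hxz hyz hy
    by_cases hz : ∃ i, p z = Sum.inr i
    · rw [tri_swap', tri_swap, hRs', hTs', hRs, hTs]
      exact hnew z x y hxz.symm hxy hyz.symm hz
    have hinl : ∀ v, (¬ ∃ i, p v = Sum.inr i) → ∃ l, p v = Sum.inl l := by
      intro v hv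
      rcases hpv : p v with l | i
      · exact ⟨l, rfl⟩
      · exact absurd ⟨i, hpv⟩ hv
    have hx' := hinl x hx
    have hy' := hinl y hy
    have hz' := hinl z hz
    rw [h4 x y z hxy hyz hxz hx' hy' hz']
    have d1 : T (p x) ≠ T (p y) := by
      intro h
      obtain ⟨l, hl⟩ := hx'
      exact hxy (h2 x y l hl (by rw [← T.injective h]; exact hl))
    have d2 : T (p y) ≠ T (p z) := by
      intro h
      obtain ⟨l, hl⟩ := hy'
      exact hyz (h2 y z l hl (by rw [← T.injective h]; exact hl))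
    have d3 : T (p x) ≠ T (p z) := by
      intro h
      obtain ⟨l, hl⟩ := hx'
      exact hxz (h2 x z l hl (by rw [← T.injective h]; exact hl))
    have m1 := (hmem _).2 hx'
    have m2 := (hmem _).2 hy'
    have m3 := (hmem _).2 hz'
    have hTT : isT (fun x => x = t1 ∨ x = t2 ∨ x = t3) (T (p x)) (T (p y)) (T (p z)) :=
      ⟨d1, d2, d3, m1, m2, m3⟩
    have heq : tri (T (p x)) (T (p y)) (T (p z)) = tri t1 t2 t3 := by
      apply Finset.eq_of_subset_of_card_le
      · intro w hw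
        rcases mem_tri.1 hw with rfl | rfl | rfl
        · exact mem_tri.2 m1
        · exact mem_tri.2 m2
        · exact mem_tri.2 m3
      · rw [card_tri h12 h23 h13, card_tri d1 d2 d3]
    have hR' : Rel H (T (p x)) (T (p y)) (T (p z)) ↔ ¬ b := by
      rw [← hb, ← heq]
      exact ⟨fun h => h.2.2.2, fun h => ⟨d1, d2, d3, h⟩⟩
    rw [hR']
    simp [hTT]
  · have h5 : ¬ Rel H x y z := fun h => hd ⟨h.1, h.2.1, h.2.2.1⟩
    have h6 : ¬ (T (p x) ≠ T (p y) ∧ T (p y) ≠ T (p z) ∧ T (p x) ≠ T (p z)) := by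
      rintro ⟨a, b, c⟩
      apply hd
      refine ⟨?_, ?_, ?_⟩
      · rintro rfl; exact a rfl
      · rintro rfl; exact b rfl
      · rintro rfl; exact c rfl
    have h7 : ¬ Rel H (T (p x)) (T (p y)) (T (p z)) := fun h => h6 ⟨h.1, h.2.1, h.2.2.1⟩
    have h8 : ¬ isT (fun x => x = t1 ∨ x = t2 ∨ x = t3) (T (p x)) (T (p y)) (T (p z)) :=
      fun h => h6 ⟨h.1, h.2.1, h.2.2.1⟩
    simp [h5, h7, h8]

/-- Label `1` for sets with repeated types. -/
theorem noB_one {W : Type} [Finite W] {q : ℕ} {H : Finset W → Prop} {T : Fin 3 ⊕ Fin q ≃ W}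
    {b : Prop} {t1 t2 t3 : W} (h12 : t1 ≠ t2) (h23 : t2 ≠ t3) (h13 : t1 ≠ t3)
    (hT : Finset.univ.map (Function.Embedding.inl.trans T.toEmbedding) = tri t1 t2 t3)
    (hb : H (tri t1 t2 t3) ↔ ¬ b)
    (hsing : ∀ τ, (τ = t1 ∨ τ = t2 ∨ τ = t3) → ∀ x,
      Rel (fun S => ¬ H S) x = Rel (fun S => ¬ H S) τ → x = τ) :
    NoB H T (fun S => ¬ (S.card = 3 ∧ ¬ H S)) b := by
  intro p h1 h2 h3 h4
  have hb' : ¬ H (tri t1 t2 t3) ↔ ¬ ¬ b := not_congr hb
  apply noB_zero (H := fun S => ¬ H S) (T := T) (b := ¬ b) h12 h23 h13 hT hb' hsing p h1 h2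
  · intro x y z hxy hyz hxz hx
    beta_reduce
    rw [h3 x y z hxy hyz hxz hx, not_not]
  · intro x y z hxy hyz hxz hx hy hz
    beta_reduce
    rw [h4 x y z hxy hyz hxz hx hy hz]

end Pool.Agent.IndSat
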