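import Mathlib
import Pool.Agent.MP_9095a7_co.Three

set_option autoImplicit false

namespace Pool.Agent.IndSat

theorem no_inj3 {W : Type} [Finite W] {q : ℕ} {H : Finset W → Prop} {T : Fin 3 ⊕ Fin q ≃ W}
    {t : Finset W} (hT : Finset.univ.map (Function.Embedding.inl.trans T.toEmbedding) = t)
    {D : Finset W → Prop} (hD : ∀ S, S.card = 3 → (D S ↔ H S)) {b : Prop} (hb : H t ↔ ¬ b)
    (p : W → Fin 3 ⊕ Fin q) (hp : Function.Injective p)
    (h3 : ∀ x y z, x ≠ y → y ≠ z → x ≠ z → (∃ i, p x = Sum.inr i) →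
        (H (tri x y z) ↔ D (tri (T (p x)) (T (p y)) (T (p z)))))
    (h4 : ∀ x y z, x ≠ y → y ≠ z → x ≠ z → (∃ l, p x = Sum.inl l) →
        (∃ l, p y = Sum.inl l) → (∃ l, p z = Sum.inl l) →
        (H (tri x y z) ↔ b)) : False := by
  classical
  apply no_inj hT hD hb p hp
  · rintro S hS ⟨v, hv, hi⟩
    obtain ⟨y, z, hxy, hyz, hxz, rfl⟩ := exists_tri_of_mem hS hv
    rw [h3 v y z hxy hyz hxz hi]
    have e3 : @Finset.image _ _ (Classical.decEq W) (fun v => T (p v)) (tri v y z)
        = tri (T (p v)) (T (p y)) (T (p z)) := by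
      ext w
      simp only [Finset.mem_image, mem_tri]
      constructor
      · rintro ⟨v, rfl | rfl | rfl, rfl⟩ <;> simp
      · rintro (rfl | rfl | rfl)
        · exact ⟨v, by simp, rfl⟩
        · exact ⟨y, by simp, rfl⟩
        · exact ⟨z, by simp, rfl⟩
    rw [e3]
  · intro S hS hall
    obtain ⟨x, y, z, hxy, hyz, hxz, rfl⟩ := exists_tri hS
    exact h4 x y z hxy hyz hxz (hall x (mem_tri.2 (by simp))) (hall y (mem_tri.2 (by simp)))
      (hall z (mem_tri.2 (by simp)))

/-- Two distinct vertices with the same sections form an empty pair. -/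
theorem empty_of_eq {W : Type} {H : Finset W → Prop} {x y : W} (hne : x ≠ y)
    (h : Rel H x = Rel H y) (z : W) : ¬ (z ≠ x ∧ z ≠ y ∧ H (tri x y z)) := by
  rintro ⟨h1, h2, h3⟩
  have h4 : Rel H x y z := ⟨hne, h2.symm, h1.symm, h3⟩
  rw [h] at h4
  exact h4.1 rfl

theorem swap_of_eq {W : Type} {H : Finset W → Prop} {x y : W}
    (h : Rel H x = Rel H y) {u v : W} (huv : u ≠ v) (hux : u ≠ x) (huy : u ≠ y) (hvx : v ≠ x)
    (hvy : v ≠ y) : H (tri x u v) ↔ H (tri y u v) := by
  have h1 : Rel H x u v ↔ Rel H y u v := by rw [h]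
  unfold Rel at h1
  constructor
  · intro h2
    exact (h1.1 ⟨hux.symm, huv, hvx.symm, h2⟩).2.2.2
  · intro h2
    exact (h1.2 ⟨huy.symm, huv, hvy.symm, h2⟩).2.2.2

/-- The special label. -/
theorem noB_special {W : Type} [Finite W] {q : ℕ} {H : Finset W → Prop}
    {T : Fin 3 ⊕ Fin q ≃ W} {c d x0 : W} (hcd : c ≠ d) (hx0c : x0 ≠ c) (hx0d : x0 ≠ d)
    (hT : Finset.univ.map (Function.Embedding.inl.trans T.toEmbedding) = tri c d x0)
    (hfull : ∀ w, w ≠ c → w ≠ d → H (tri c d w))
    (htw : ∀ u v, u ≠ v → u ≠ c → u ≠ d → v ≠ c → v ≠ d → (H (tri c u v) ↔ H (tri d u v)))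
    (hemp : ∀ u, u ≠ c → u ≠ d → ∃ u', u' ≠ u ∧ Rel H u = Rel H u')
    (hmeet : ∀ x y z, x ≠ y → y ≠ z → x ≠ z → H (tri x y z) →
      (x = c ∨ y = c ∨ z = c ∨ x = d ∨ y = d ∨ z = d))
    (hm : ∀ w : W, ∃ w', w' ≠ w ∧ w' ≠ c ∧ w' ≠ d) :
    NoB H T (fun S => (S.card = 3 ∧ H S) ∨ (S.card ≠ 3 ∧ c ∈ S)) False := by
  intro p h1 h2 h3 h4
  have hmem : ∀ x : Fin 3 ⊕ Fin q, (T x = c ∨ T x = d ∨ T x = x0) ↔ ∃ l, x = Sum.inl l := by
    intro x
    rw [← mem_tri]
    exact mem_t hT x
  by_cases hp : Function.Injective p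
  · refine no_inj3 hT (D := fun S => (S.card = 3 ∧ H S) ∨ (S.card ≠ 3 ∧ c ∈ S)) ?_ ?_ p hp h3 h4
    · intro S hS; simp [hS]
    · simp [hfull x0 hx0c hx0d]
  -- two clones
  obtain ⟨u, v, huv, hne⟩ : ∃ u v, p u = p v ∧ u ≠ v := by
    by_contra hcon
    push Not at hcon
    exact hp (fun u v h => hcon u v h)
  obtain ⟨i, hi⟩ : ∃ i, p u = Sum.inr i := by
    rcases hpu : p u with l | i
    · exact absurd (h2 u v l hpu (by rw [← huv]; exact hpu)) hne
    · exact ⟨i, rfl⟩
  have hiv : ∃ i, p v = Sum.inr i := ⟨i, by rw [← huv]; exact hi⟩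
  have hiu : ∃ i, p u = Sum.inr i := ⟨i, hi⟩
  have hlink : ∀ w, w ≠ u → w ≠ v → (H (tri u v w) ↔ T (p w) = c) := by
    intro w hwu hwv
    rw [h3 u v w hne hwv.symm hwu.symm hiu]
    have e1 : (tri (T (p u)) (T (p v)) (T (p w))).card ≠ 3 := by
      rw [Ne, card_tri_iff]
      rintro ⟨h, -, -⟩
      exact h (by rw [huv])
    have e2 : T (p u) ≠ c := by
      intro h
      obtain ⟨l, hl⟩ := (hmem (p u)).1 (Or.inl h)
      rw [hi] at hl
      cases hl
    have e3 : T (p v) ≠ c := by rw [← huv]; exact e2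
    simp only [e1, false_and, ne_eq, not_false_eq_true, true_and, false_or, mem_tri]
    constructor
    · rintro (h | h | h)
      · exact absurd h.symm e2
      · exact absurd h.symm e3
      · exact h.symm
    · intro h
      exact Or.inr (Or.inr h.symm)
  have htwin : ∀ w w', w ≠ w' → w ≠ u → w ≠ v → w' ≠ u → w' ≠ v →
      (H (tri u w w') ↔ H (tri v w w')) := by
    intro w w' hww hwu hwv hwu' hwv'
    rw [h3 u w w' hwu.symm hww hwu'.symm hiu, h3 v w w' hwv.symm hww hwv'.symm hiv, huv]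
  have huniq : ∀ w w' τ, (τ = c ∨ τ = d ∨ τ = x0) → T (p w) = τ → T (p w') = τ → w = w' := by
    intro w w' τ hτ h5 h6
    obtain ⟨l, hl⟩ := (hmem (p w)).1 (by rw [h5]; exact hτ)
    refine h2 w w' l hl ?_
    rw [← hl]
    exact T.injective (h6.trans h5.symm)
  by_cases hw0 : ∃ w0, T (p w0) = c
  · obtain ⟨w0, hw0⟩ := hw0
    have hw0u : w0 ≠ u := by
      rintro rfl
      obtain ⟨l, hl⟩ := (hmem (p w0)).1 (Or.inl hw0)
      rw [hi] at hl
      cases hl
    have hw0v : w0 ≠ v := by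
      rintro rfl
      obtain ⟨l, hl⟩ := (hmem (p w0)).1 (Or.inl hw0)
      rw [← huv, hi] at hl
      cases hl
    have hlink0 : H (tri u v w0) := (hlink w0 hw0u hw0v).2 hw0
    have hlink1 : ∀ w, w ≠ u → w ≠ v → H (tri u v w) → w = w0 := by
      intro w hwu hwv h5
      exact huniq w w0 c (Or.inl rfl) ((hlink w hwu hwv).1 h5) hw0
    -- one of the two in `{c, d}`, the other not
    have hmix : ∀ u v, u ≠ v → (∀ w w', w ≠ w' → w ≠ u → w ≠ v → w' ≠ u → w' ≠ v →
        (H (tri u w w') ↔ H (tri v w w'))) → (u = c ∨ u = d) → v ≠ c → v ≠ d → False := by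
      intro u v huv htwin hu hvc hvd
      obtain ⟨v', hv'1, hv'2⟩ := hemp v hvc hvd
      have hv'c : v' ≠ c := by
        rintro rfl
        obtain ⟨w', hw'1, hw'2, hw'3⟩ := hm v
        have h5 := hfull v hvc hvd
        exact empty_of_eq hv'1.symm hv'2 d ⟨hvd.symm, hcd.symm, by
          rw [tri_swap', tri_swap, tri_swap, tri_swap', tri_swap, tri_swap']
          exact h5⟩
      have hv'd : v' ≠ d := by
        rintro rfl
        have h5 := hfull v hvc hvd
        exact empty_of_eq hv'1.symm hv'2 c ⟨hvc.symm, hcd, by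
          rw [tri_swap', tri_swap, tri_swap']
          exact h5⟩
      rcases hu with rfl | rfl
      · -- u = c
        have h5 : H (tri u d v') := hfull v' hv'c hv'd
        have h6 := (htwin d v' hv'd.symm hcd.symm hvd.symm hv'c hv'1).1 h5
        exact empty_of_eq hv'1.symm hv'2 d ⟨hvd.symm, hv'd.symm, by rw [tri_swap']; exact h6⟩
      · -- u = d
        have h5 : H (tri u c v') := by rw [tri_swap]; exact hfull v' hv'c hv'd
        have h6 := (htwin c v' hv'c.symm hcd hvc.symm hv'd hv'1).1 h5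
        exact empty_of_eq hv'1.symm hv'2 c ⟨hvc.symm, hv'c.symm, by rw [tri_swap']; exact h6⟩
    by_cases hu : u = c ∨ u = d
    · by_cases hv : v = c ∨ v = d
      · -- the pair is `{c, d}`
        obtain ⟨w', hw'1, hw'2, hw'3⟩ := hm w0
        apply hw'1
        apply hlink1
        · rcases hu with rfl | rfl
          · exact hw'2
          · exact hw'3
        · rcases hv with rfl | rfl
          · exact hw'2
          · exact hw'3
        · rcases hu with rfl | rfl
          · rcases hv with rfl | rfl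
            · exact absurd rfl hne
            · exact hfull w' hw'2 hw'3
          · rcases hv with rfl | rfl
            · rw [tri_swap]; exact hfull w' hw'2 hw'3
            · exact absurd rfl hne
      · have hv' := not_or.1 hv
        exact hmix u v hne htwin hu hv'.1 hv'.2
    · have hu' := not_or.1 hu
      by_cases hv : v = c ∨ v = d
      · exact hmix v u hne.symm (fun w w' a b c d e => (htwin w w' a c b e d).symm) hv hu'.1 hu'.2
      · have hv' := not_or.1 hv
        obtain ⟨u', hu'1, hu'2⟩ := hemp u hu'.1 hu'.2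
        have h5 : u' ≠ v := by
          rintro rfl
          exact empty_of_eq hu'1.symm hu'2 w0 ⟨hw0u, hw0v, hlink0⟩
        have h6 : w0 ≠ u' := by
          rintro rfl
          exact empty_of_eq hu'1.symm hu'2 v ⟨hne.symm, h5.symm, by rw [tri_swap']; exact hlink0⟩
        have h7 := (swap_of_eq hu'2 hw0v.symm hne.symm h5.symm hw0u h6).1 hlink0
        rw [tri_swap] at h7
        have h8 := (htwin u' w0 h6.symm hu'1 h5 hw0u hw0v).2 h7
        exact empty_of_eq hu'1.symm hu'2 w0 ⟨hw0u, h6, h8⟩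
  · have hnc : ∀ w, T (p w) ≠ c := fun w h => hw0 ⟨w, h⟩
    -- every edge has an image which is an edge
    have hE : ∀ x y z, x ≠ y → y ≠ z → x ≠ z → H (tri x y z) →
        (T (p x) ≠ T (p y) ∧ T (p y) ≠ T (p z) ∧ T (p x) ≠ T (p z)) ∧
          H (tri (T (p x)) (T (p y)) (T (p z))) := by
      have hE' : ∀ x y z, x ≠ y → y ≠ z → x ≠ z → H (tri x y z) → (∃ i, p x = Sum.inr i) →
        (T (p x) ≠ T (p y) ∧ T (p y) ≠ T (p z) ∧ T (p x) ≠ T (p z)) ∧
          H (tri (T (p x)) (T (p y)) (T (p z))) := by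
        intro x y z hxy hyz hxz hH hx
        rcases (h3 x y z hxy hyz hxz hx).1 hH with h5 | h5
        · exact ⟨(card_tri_iff _ _ _).1 h5.1, h5.2⟩
        · exfalso
          rcases mem_tri.1 h5.2 with h6 | h6 | h6
          · exact hnc _ h6.symm
          · exact hnc _ h6.symm
          · exact hnc _ h6.symm
      intro x y z hxy hyz hxz hH
      by_cases hx : ∃ i, p x = Sum.inr i
      · exact hE' x y z hxy hyz hxz hH hx
      by_cases hy : ∃ i, p y = Sum.inr i
      · have h5 := hE' y x z hxy.symm hxz hyz (by rw [tri_swap]; exact hH) hy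
        refine ⟨⟨h5.1.1.symm, h5.1.2.2, h5.1.2.1⟩, ?_⟩
        rw [tri_swap]; exact h5.2
      by_cases hz : ∃ i, p z = Sum.inr i
      · have h5 := hE' z x y hxz.symm hxy hyz.symm (by rw [tri_swap, tri_swap']; exact hH) hz
        refine ⟨⟨h5.1.2.1, h5.1.2.2.symm, h5.1.1.symm⟩, ?_⟩
        rw [tri_swap', tri_swap]; exact h5.2
      have hinl : ∀ v, (¬ ∃ i, p v = Sum.inr i) → ∃ l, p v = Sum.inl l := by
        intro v hv
        rcases hpv : p v with l | i
        · exact ⟨l, rfl⟩
        · exact absurd ⟨i, hpv⟩ hv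
      exact ((h4 x y z hxy hyz hxz (hinl x hx) (hinl y hy) (hinl z hz)).1 hH).elim
    have hd : ∀ x y z, x ≠ y → y ≠ z → x ≠ z → H (tri x y z) →
        (T (p x) = d ∨ T (p y) = d ∨ T (p z) = d) := by
      intro x y z hxy hyz hxz hH
      obtain ⟨⟨a, b, e⟩, f⟩ := hE x y z hxy hyz hxz hH
      rcases hmeet _ _ _ a b e f with h5 | h5 | h5 | h5 | h5 | h5
      · exact absurd h5 (hnc _)
      · exact absurd h5 (hnc _)
      · exact absurd h5 (hnc _)
      · exact Or.inl h5
      · exact Or.inr (Or.inl h5)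
      · exact Or.inr (Or.inr h5)
    obtain ⟨w1, -, hw1c, hw1d⟩ := hm c
    have hex : ∃ wd, T (p wd) = d := by
      rcases hd c d w1 hcd hw1d.symm hw1c.symm (hfull w1 hw1c hw1d) with h5 | h5 | h5
      · exact ⟨_, h5⟩
      · exact ⟨_, h5⟩
      · exact ⟨_, h5⟩
    obtain ⟨wd, hwd⟩ := hex
    have hall : ∀ x y z, x ≠ y → y ≠ z → x ≠ z → H (tri x y z) →
        (x = wd ∨ y = wd ∨ z = wd) := by
      intro x y z hxy hyz hxz hH
      rcases hd x y z hxy hyz hxz hH with h5 | h5 | h5
      · exact Or.inl (huniq _ _ d (by simp) h5 hwd)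
      · exact Or.inr (Or.inl (huniq _ _ d (by simp) h5 hwd))
      · exact Or.inr (Or.inr (huniq _ _ d (by simp) h5 hwd))
    have hwdcd : wd = c ∨ wd = d := by
      by_contra hcon
      have hcon' := not_or.1 hcon
      obtain ⟨w2, hw2, hw2c, hw2d⟩ := hm wd
      rcases hall c d w2 hcd hw2d.symm hw2c.symm (hfull w2 hw2c hw2d) with h5 | h5 | h5
      · exact hcon'.1 h5.symm
      · exact hcon'.2 h5.symm
      · exact hw2 h5
    -- every edge contains `c`
    have hc : ∀ x y z, x ≠ y → y ≠ z → x ≠ z → H (tri x y z) → (x = c ∨ y = c ∨ z = c) := by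
      rcases hwdcd with rfl | rfl
      · exact hall
      · -- all edges contain `d`
        have key : ∀ y z, wd ≠ y → y ≠ z → wd ≠ z → H (tri wd y z) → (y = c ∨ z = c) := by
          intro y z h5 h6 h7 h8
          by_contra hcon
          have hcon' := not_or.1 hcon
          have h9 := (htw y z h6 hcon'.1 h5.symm hcon'.2 h7.symm).2 h8
          rcases hall c y z (Ne.symm hcon'.1) h6 (Ne.symm hcon'.2) h9 with h10 | h10 | h10
          · exact hcd h10
          · exact h5 h10.symm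
          · exact h7 h10.symm
        intro x y z hxy hyz hxz hH
        rcases hall x y z hxy hyz hxz hH with rfl | rfl | rfl
        · exact Or.inr (key y z hxy hyz hxz hH)
        · rcases key x z hxy.symm hxz hyz (by rw [tri_swap]; exact hH) with h5 | h5
          · exact Or.inl h5
          · exact Or.inr (Or.inr h5)
        · rcases key x y hxz.symm hxy hyz.symm (by rw [tri_swap, tri_swap']; exact hH) with h5 | h5
          · exact Or.inl h5
          · exact Or.inr (Or.inl h5)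
    obtain ⟨⟨a, b, e⟩, f⟩ := hE c d w1 hcd hw1d.symm hw1c.symm (hfull w1 hw1c hw1d)
    rcases hc _ _ _ a b e f with h5 | h5 | h5
    · exact hnc _ h5
    · exact hnc _ h5
    · exact hnc _ h5

end Pool.Agent.IndSat
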