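import Mathlib
import Pool.Agent.MP_9095a7_co.Special

set_option autoImplicit false

namespace Pool.Agent.IndSat

/-- Pairs in no edge. -/
def Emp {W : Type} (H : Finset W → Prop) (u v : W) : Prop :=
  u ≠ v ∧ ∀ w, w ≠ u → w ≠ v → ¬ H (tri u v w)

/-- Pairs in no non-edge. -/
def Ful {W : Type} (H : Finset W → Prop) (u v : W) : Prop :=
  u ≠ v ∧ ∀ w, w ≠ u → w ≠ v → H (tri u v w)

theorem Emp.symm {W : Type} {H : Finset W → Prop} {u v : W} (h : Emp H u v) : Emp H v u :=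
  ⟨h.1.symm, fun w h1 h2 => by rw [tri_swap]; exact h.2 w h2 h1⟩

theorem Ful.symm {W : Type} {H : Finset W → Prop} {u v : W} (h : Ful H u v) : Ful H v u :=
  ⟨h.1.symm, fun w h1 h2 => by rw [tri_swap]; exact h.2 w h2 h1⟩

theorem Ful.not_emp {W : Type} {H : Finset W → Prop} {u v w : W} (hW : ∀ a b : W, ∃ c, c ≠ a ∧ c ≠ b)
    (h : Ful H u v) (h' : Emp H u w) : False := by
  by_cases hvw : v = w
  · subst hvw
    obtain ⟨c, hc1, hc2⟩ := hW u v
    exact h'.2 c hc1 hc2 (h.2 c hc1 hc2)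
  · have h1 := h.2 w h'.1.symm (Ne.symm hvw)
    rw [tri_swap'] at h1
    exact h'.2 v h.1.symm hvw h1

open Classical in
/-- Vertices in empty pairs. -/
noncomputable def VE {W : Type} [Fintype W] (H : Finset W → Prop) : Finset W :=
  Finset.univ.filter (fun u => ∃ v, Emp H u v)

theorem mem_VE {W : Type} [Fintype W] {H : Finset W → Prop} {u : W} :
    u ∈ VE H ↔ ∃ v, Emp H u v := by
  classical
  simp [VE]

theorem exists_other {W : Type} [Fintype W] (h : 4 ≤ Fintype.card W) (a b c : W) :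
    ∃ w : W, w ≠ a ∧ w ≠ b ∧ w ≠ c := by
  classical
  by_contra hcon
  push Not at hcon
  have h1 : (Finset.univ : Finset W) ⊆ {a, b, c} := by
    intro w _
    by_cases h2 : w = a
    · simp [h2]
    by_cases h3 : w = b
    · simp [h3]
    simp [hcon w h2 h3]
  have h2 := Finset.card_le_card h1
  have h3 : ({a, b, c} : Finset W).card ≤ 3 := Finset.card_le_three
  rw [Finset.card_univ] at h2
  omega

theorem exists_noB {W : Type} [Fintype W] (h4 : 4 ≤ Fintype.card W) {H : Finset W → Prop} {c d : W}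
    (hf : Ful H c d) :
    ∃ t1 t2 t3, t1 ≠ t2 ∧ t2 ≠ t3 ∧ t1 ≠ t3 ∧ H (tri t1 t2 t3) ∧
      ∀ (T : Fin 3 ⊕ Fin (Fintype.card W - 3) ≃ W),
        Finset.univ.map (Function.Embedding.inl.trans T.toEmbedding) = tri t1 t2 t3 →
        ∃ D : Finset W → Prop, (∀ S, S.card = 3 → (D S ↔ H S)) ∧ NoB H T D False := by
  have hcd := hf.1
  have hsingc : ∀ c d, Ful H c d → ∀ y, Rel H y = Rel H c → y = c := by
    intro c d hf y hy
    by_contra hne
    by_cases hyd : y = d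
    · subst hyd
      obtain ⟨w, hw1, hw2, -⟩ := exists_other h4 c y y
      exact empty_of_eq hne hy w ⟨hw2, hw1, by rw [tri_swap]; exact hf.2 w hw1 hw2⟩
    · exact empty_of_eq hne hy d ⟨Ne.symm hyd, hf.1.symm, by
        rw [tri_swap, tri_swap']; exact hf.2 y hne hyd⟩
  by_cases hA : ∃ x, x ≠ c ∧ x ≠ d ∧ ∀ y, Rel H y = Rel H x → y = x
  · obtain ⟨x, hxc, hxd, hx⟩ := hA
    refine ⟨c, d, x, hcd, hxd.symm, hxc.symm, hf.2 x hxc hxd, fun T hT => ?_⟩
    refine ⟨fun S => S.card = 3 ∧ H S, fun S hS => by simp [hS], ?_⟩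
    apply noB_zero hcd hxd.symm hxc.symm hT (by simp [hf.2 x hxc hxd])
    rintro τ (rfl | rfl | rfl) y hy
    · exact hsingc τ d hf y hy
    · exact hsingc τ c hf.symm y hy
    · exact hx y hy
  push Not at hA
  by_cases hB : ∃ t1 t2 t3, t1 ≠ t2 ∧ t2 ≠ t3 ∧ t1 ≠ t3 ∧ H (tri t1 t2 t3) ∧
      ∀ τ, (τ = t1 ∨ τ = t2 ∨ τ = t3) → ∀ x,
      Rel (fun S => ¬ H S) x = Rel (fun S => ¬ H S) τ → x = τ
  · obtain ⟨t1, t2, t3, h12, h23, h13, hH, hs⟩ := hB
    refine ⟨t1, t2, t3, h12, h23, h13, hH, fun T hT => ?_⟩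
    refine ⟨fun S => ¬ (S.card = 3 ∧ ¬ H S), fun S hS => by simp [hS], ?_⟩
    exact noB_one h12 h23 h13 hT (by simp [hH]) hs
  push Not at hB
  -- full twins are exactly `c, d`
  have hemp : ∀ u, u ≠ c → u ≠ d → ∃ u', u' ≠ u ∧ Rel H u = Rel H u' := by
    intro u h1 h2
    obtain ⟨y, hy1, hy2⟩ := hA u h1 h2
    exact ⟨y, hy2, hy1.symm⟩
  have hempE : ∀ u, u ≠ c → u ≠ d → ∃ u', Emp H u u' := by
    intro u h1 h2
    obtain ⟨u', h3, h4⟩ := hemp u h1 h2
    refine ⟨u', h3.symm, fun w hw1 hw2 hH => ?_⟩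
    exact empty_of_eq h3.symm h4 w ⟨hw1, hw2, hH⟩
  have hW : ∀ a b : W, ∃ c, c ≠ a ∧ c ≠ b := by
    intro a b
    obtain ⟨w, h1, h2, -⟩ := exists_other h4 a b b
    exact ⟨w, h1, h2⟩
  have hftw : ∀ x y, x ≠ y → Rel (fun S => ¬ H S) x = Rel (fun S => ¬ H S) y →
      (x = c ∨ x = d) := by
    intro x y hxy hR
    by_contra hcon
    have hcon' := not_or.1 hcon
    obtain ⟨x', hx'⟩ := hempE x hcon'.1 hcon'.2
    have hfxy : Ful H x y := by
      refine ⟨hxy, fun w hw1 hw2 => ?_⟩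
      by_contra hH
      exact empty_of_eq (H := fun S => ¬ H S) hxy hR w ⟨hw1, hw2, hH⟩
    exact hfxy.not_emp hW hx'
  obtain ⟨x0, hx0c, hx0d, -⟩ := exists_other h4 c d d
  have hcdR : Rel (fun S => ¬ H S) c = Rel (fun S => ¬ H S) d := by
    obtain ⟨τ, hτ, y, hy1, hy2⟩ := hB c d x0 hcd hx0d.symm hx0c.symm (hf.2 x0 hx0c hx0d)
    have h5 := hftw y τ hy2 hy1
    have h6 := hftw τ y hy2.symm hy1.symm
    rcases h5 with rfl | rfl
    · rcases h6 with rfl | rfl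
      · exact absurd rfl hy2
      · exact hy1
    · rcases h6 with rfl | rfl
      · exact hy1.symm
      · exact absurd rfl hy2
  refine ⟨c, d, x0, hcd, hx0d.symm, hx0c.symm, hf.2 x0 hx0c hx0d, fun T hT => ?_⟩
  refine ⟨fun S => (S.card = 3 ∧ H S) ∨ (S.card ≠ 3 ∧ c ∈ S), fun S hS => by simp [hS], ?_⟩
  apply noB_special hcd hx0c hx0d hT hf.2
  · intro u v huv h1 h2 h3 h4
    have h5 := swap_of_eq (H := fun S => ¬ H S) hcdR huv h1 h2 h3 h4
    exact not_iff_not.1 h5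
  · exact hemp
  · intro x y z hxy hyz hxz hH
    obtain ⟨τ, hτ, y', hy1, hy2⟩ := hB x y z hxy hyz hxz hH
    have h6 := hftw τ y' hy2.symm hy1.symm
    rcases hτ with rfl | rfl | rfl <;> rcases h6 with h | h <;> simp [h]
  · intro w
    obtain ⟨w', h1, h2, h3⟩ := exists_other h4 w c d
    exact ⟨w', h1, h2, h3⟩

theorem noZ_true {W : Type} [Fintype W] {q : ℕ} {H : Finset W → Prop} {T : Fin 3 ⊕ Fin q ≃ W}
    {D : Finset W → Prop} {b : Prop} (hW : ∀ a b : W, ∃ c, c ≠ a ∧ c ≠ b)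
    (hVE : 4 ≤ (VE H).card) : NoZ H T D True b := by
  classical
  intro out p x0 z0 hz0 hx0 h2 h3 h4
  have hfull : ∀ x z, (¬ out x ∧ ∃ i, p x = Sum.inr i) → out z → Ful H x z := by
    intro x z hx hz
    have hxz : x ≠ z := by rintro rfl; exact hx.1 hz
    refine ⟨hxz, fun w hw1 hw2 => ?_⟩
    rw [h3 x z w hxz hw2.symm hw1.symm hx]
    exact Or.inl ⟨Or.inl hz, trivial⟩
  have hety : ∀ u ∈ VE H, ¬ out u ∧ ∃ l, p u = Sum.inl l := by
    intro u hu
    obtain ⟨v, hv⟩ := mem_VE.1 hu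
    have h5 : ¬ out u := fun ho => (hfull x0 u hx0 ho).symm.not_emp hW hv
    refine ⟨h5, ?_⟩
    rcases hpu : p u with l | i
    · exact ⟨l, rfl⟩
    · exact ((hfull u z0 ⟨h5, i, hpu⟩ hz0).not_emp hW hv).elim
  have hinj : (VE H).card ≤ (Finset.univ : Finset (Fin 3)).card := by
    have hch : ∀ u ∈ VE H, ∃ l, p u = Sum.inl l := fun u hu => (hety u hu).2
    choose! f hf using hch
    apply Finset.card_le_card_of_injOn f (fun _ _ => Finset.mem_univ _)
    intro u hu v hv huv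
    exact h2 u v (f u) (hety u hu).1 (hety v hv).1 (hf u hu) (by rw [huv]; exact hf v hv)
  simp at hinj
  omega

theorem noZ_false {W : Type} [Fintype W] {q : ℕ} {H : Finset W → Prop} {T : Fin 3 ⊕ Fin q ≃ W}
    {D : Finset W → Prop} (hW : ∀ a b : W, ∃ c, c ≠ a ∧ c ≠ b) {c d : W} (hf : Ful H c d)
    (hVE : (VE H).card + 3 ≤ Fintype.card W) : NoZ H T D False False := by
  classical
  intro out p x0 z0 hz0 hx0 h2 h3 h4
  have hemp : ∀ x z, (¬ out x ∧ ∃ i, p x = Sum.inr i) → out z → Emp H x z := by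
    intro x z hx hz
    have hxz : x ≠ z := by rintro rfl; exact hx.1 hz
    refine ⟨hxz, fun w hw1 hw2 hH => ?_⟩
    rw [h3 x z w hxz hw2.symm hw1.symm hx] at hH
    rcases hH with h | h
    · exact h.2
    · exact h.1.1 hz
  have hety : ∀ u, u ∉ VE H → ¬ out u ∧ ∃ l, p u = Sum.inl l := by
    intro u hu
    have h5 : ¬ out u := fun ho => hu (mem_VE.2 ⟨x0, (hemp x0 u hx0 ho).symm⟩)
    refine ⟨h5, ?_⟩
    rcases hpu : p u with l | i
    · exact ⟨l, rfl⟩
    · exact absurd (mem_VE.2 ⟨z0, hemp u z0 ⟨h5, i, hpu⟩ hz0⟩) hu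
  have hc : c ∉ VE H := by
    intro h
    obtain ⟨v, hv⟩ := mem_VE.1 h
    exact hf.not_emp hW hv
  have hd : d ∉ VE H := by
    intro h
    obtain ⟨v, hv⟩ := mem_VE.1 h
    exact hf.symm.not_emp hW hv
  obtain ⟨y, hy, hyc, hyd⟩ : ∃ y, y ∉ VE H ∧ y ≠ c ∧ y ≠ d := by
    by_contra hcon
    push Not at hcon
    have h5 : (VE H)ᶜ ⊆ {c, d} := by
      intro y hy
      rw [Finset.mem_compl] at hy
      by_cases h6 : y = c
      · simp [h6]
      · simp [hcon y hy h6]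
    have h6 := Finset.card_le_card h5
    rw [Finset.card_compl] at h6
    have h7 := Finset.card_le_two (a := c) (b := d)
    omega
  have h5 := (h4 c d y hf.1 hyd.symm hyc.symm (hety c hc) (hety d hd) (hety y hy)).1
    (hf.2 y hyc hyd)
  exact h5

theorem data_false {W : Type} [Fintype W] (h4 : 4 ≤ Fintype.card W) {H : Finset W → Prop}
    {c d : W} (hf : Ful H c d) (hVE : 4 ≤ (VE H).card ∨ (VE H).card + 3 ≤ Fintype.card W) :
    Data H False := by
  have hW : ∀ a b : W, ∃ c, c ≠ a ∧ c ≠ b := by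
    intro a b
    obtain ⟨w, h1, h2, -⟩ := exists_other h4 a b b
    exact ⟨w, h1, h2⟩
  obtain ⟨t1, t2, t3, h12, h23, h13, hH, hT⟩ := exists_noB h4 hf
  obtain ⟨T, hTt⟩ := exists_T 3 (tri t1 t2 t3) (card_tri h12 h23 h13)
  obtain ⟨D, hD, hB⟩ := hT T hTt
  rcases hVE with h | h
  · refine ⟨T, D, True, hD, ?_, noCopy_of hB (noZ_true hW h)⟩
    rw [hTt]; simp [hH]
  · refine ⟨T, D, False, hD, ?_, noCopy_of hB (noZ_false hW hf h)⟩
    rw [hTt]; simp [hH]

theorem ful_compl {W : Type} {H : Finset W → Prop} {a b : W} (h : Emp H a b) :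
    Ful (fun S => ¬ H S) a b := h

theorem emp_compl {W : Type} {H : Finset W → Prop} {a b : W} (h : Emp (fun S => ¬ H S) a b) :
    Ful H a b := ⟨h.1, fun w h1 h2 => not_not.1 (h.2 w h1 h2)⟩

theorem data_true {W : Type} [Fintype W] (h4 : 4 ≤ Fintype.card W) {H : Finset W → Prop}
    {a b : W} (hf : Emp H a b) (hVF : 4 ≤ (VE (fun S => ¬ H S)).card ∨
      (VE (fun S => ¬ H S)).card + 3 ≤ Fintype.card W) :
    Data H True := by
  apply Data.compl
  have h5 := data_false h4 (ful_compl hf) hVF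
  rw [not_true_eq_false]
  exact h5

/-- At least six vertices. -/
theorem sat_three_six {W : Type} [Fintype W] (h6 : 6 ≤ Fintype.card W) {H : Finset W → Prop}
    {a b c d : W} (he : Emp H a b) (hf : Ful H c d) : Sat 3 H ℕ := by
  obtain ⟨x, hx1, hx2, -⟩ := exists_other (by omega) c d d
  obtain ⟨y, hy1, hy2, -⟩ := exists_other (by omega) a b b
  apply sat_of_data
  · exact ⟨tri c d x, card_tri hf.1 hx2.symm hx1.symm, hf.2 x hx1 hx2⟩
  · exact ⟨tri a b y, card_tri he.1 hy2.symm hy1.symm, he.2 y hy1 hy2⟩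
  · exact data_false (by omega) hf (by omega)
  · exact data_true (by omega) he (by omega)

end Pool.Agent.IndSat
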