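import Mathlib
import Pool.Agent.MP_9095a7_co.Main3

set_option autoImplicit false

namespace Pool.Agent.IndSat

/-- The exceptional hypergraphs on five vertices. -/
def h5 (p r : Bool) (S : Finset (Fin 5)) : Prop :=
  (3 ∈ S ∧ 4 ∈ S) ∨ (p = true ∧ 1 ∈ S ∧ 2 ∈ S ∧ 3 ∈ S) ∨ (r = true ∧ 1 ∈ S ∧ 2 ∈ S ∧ 4 ∈ S)

/-- Boolean version. -/
def b5 (p r : Bool) (x y z : Fin 5) : Bool :=
  ((3 == x || 3 == y || 3 == z) && (4 == x || 4 == y || 4 == z)) ||
  (p && (1 == x || 1 == y || 1 == z) && (2 == x || 2 == y || 2 == z) &&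
    (3 == x || 3 == y || 3 == z)) ||
  (r && (1 == x || 1 == y || 1 == z) && (2 == x || 2 == y || 2 == z) &&
    (4 == x || 4 == y || 4 == z))

theorem h5_tri (p r : Bool) (x y z : Fin 5) : h5 p r (tri x y z) ↔ b5 p r x y z = true := by
  unfold h5 b5
  simp only [mem_tri, Bool.or_eq_true, Bool.and_eq_true, beq_iff_eq, and_assoc, or_assoc]

theorem hW5 : ∀ a b : Fin 5, ∃ c, c ≠ a ∧ c ≠ b := by decide

theorem full34 (p r : Bool) : Ful (h5 p r) 3 4 := by
  refine ⟨by decide, fun w _ _ => ?_⟩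
  left
  exact ⟨mem_tri.2 (by simp), mem_tri.2 (by simp)⟩

theorem emp01 (p r : Bool) : Emp (h5 p r) 0 1 := by
  refine ⟨by decide, fun w h0 h1 => ?_⟩
  rw [h5_tri]
  revert h0 h1
  revert p r w
  decide

theorem emp02 (p r : Bool) : Emp (h5 p r) 0 2 := by
  refine ⟨by decide, fun w h0 h1 => ?_⟩
  rw [h5_tri]
  revert h0 h1
  revert p r w
  decide

theorem notful (p r : Bool) (u v : Fin 5) (h : Ful (h5 p r) u v) : u = 3 ∨ u = 4 := by
  by_contra hcon
  have h0 : u = 0 ∨ u = 1 ∨ u = 2 := by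
    clear h
    revert hcon
    revert u
    decide
  rcases h0 with rfl | rfl | rfl
  · exact h.not_emp hW5 (emp01 p r)
  · exact h.not_emp hW5 (emp01 p r).symm
  · exact h.not_emp hW5 (emp02 p r).symm

theorem data_true5 (p r : Bool) : Data (h5 p r) True := by
  apply data_true (by simp) (emp01 p r)
  right
  have h1 : VE (fun S => ¬ h5 p r S) ⊆ {3, 4} := by
    intro u hu
    obtain ⟨v, hv⟩ := mem_VE.1 hu
    have := notful p r u v (emp_compl hv)
    simpa using this
  have h2 := Finset.card_le_card h1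
  have h3 : ({3, 4} : Finset (Fin 5)).card = 2 := by decide
  simp only [Fintype.card_fin]
  omega

theorem noZ_five {p r : Bool} {T : Fin 3 ⊕ Fin 2 ≃ Fin 5} {D : Finset (Fin 5) → Prop}
    {t1 t2 t3 : Fin 5}
    (hT : Finset.univ.map (Function.Embedding.inl.trans T.toEmbedding) = tri t1 t2 t3)
    (hD : ∀ S, S.card = 3 → (D S ↔ h5 p r S))
    (hfin : ∀ x0 i s0 s1 s2 : Fin 5, (x0 = 3 ∨ x0 = 4) → s0 ≠ s1 → s1 ≠ s2 → s0 ≠ s2 →
      (s0 = t1 ∨ s0 = t2 ∨ s0 = t3) → (s1 = t1 ∨ s1 = t2 ∨ s1 = t3) →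
      (s2 = t1 ∨ s2 = t2 ∨ s2 = t3) → ¬ (i = t1 ∨ i = t2 ∨ i = t3) →
      (b5 p r x0 0 1 = b5 p r i s0 s1) → (b5 p r x0 0 2 = b5 p r i s0 s2) →
      (b5 p r x0 1 2 = b5 p r i s1 s2) → False) (b : Prop) :
    NoZ (h5 p r) T D True b := by
  intro out q x0 z0 hz0 hx0 h2 h3 h4
  have hmem : ∀ x : Fin 3 ⊕ Fin 2, (T x = t1 ∨ T x = t2 ∨ T x = t3) ↔ ∃ l, x = Sum.inl l := by
    intro x
    rw [← mem_tri]
    exact mem_t hT x
  have hfull : ∀ x z, (¬ out x ∧ ∃ i, q x = Sum.inr i) → out z → Ful (h5 p r) x z := by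
    intro x z hx hz
    have hxz : x ≠ z := by rintro rfl; exact hx.1 hz
    refine ⟨hxz, fun w hw1 hw2 => ?_⟩
    rw [h3 x z w hxz hw2.symm hw1.symm hx]
    exact Or.inl ⟨Or.inl hz, trivial⟩
  have hx34 := notful p r x0 z0 (hfull x0 z0 hx0 hz0)
  have hety : ∀ u, ¬ (u = 3 ∨ u = 4) → ¬ out u ∧ ∃ l, q u = Sum.inl l := by
    intro u hu
    have h5 : ¬ out u := fun ho => hu (notful p r u x0 (hfull x0 u hx0 ho).symm)
    refine ⟨h5, ?_⟩
    rcases hpu : q u with l | i
    · exact ⟨l, rfl⟩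
    · exact absurd (notful p r u z0 (hfull u z0 ⟨h5, i, hpu⟩ hz0)) hu
  have e0 := hety 0 (by decide)
  have e1 := hety 1 (by decide)
  have e2 := hety 2 (by decide)
  have hne : ∀ u v, u ≠ v → (¬ out u ∧ ∃ l, q u = Sum.inl l) → ¬ out v →
      T (q u) ≠ T (q v) := by
    intro u v huv hu hv h
    obtain ⟨l, hl⟩ := hu.2
    exact huv (h2 u v l hu.1 hv hl (by rw [← T.injective h]; exact hl))
  have hnew : ¬ (T (q x0) = t1 ∨ T (q x0) = t2 ∨ T (q x0) = t3) := by
    intro h
    obtain ⟨l, hl⟩ := (hmem _).1 h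
    obtain ⟨i, hi⟩ := hx0.2
    rw [hi] at hl
    cases hl
  have m0 := (hmem _).2 e0.2
  have m1 := (hmem _).2 e1.2
  have m2 := (hmem _).2 e2.2
  have key : ∀ u v, u ≠ v → x0 ≠ u → x0 ≠ v → (¬ out u ∧ ∃ l, q u = Sum.inl l) →
      (¬ out v ∧ ∃ l, q v = Sum.inl l) →
      b5 p r x0 u v = b5 p r (T (q x0)) (T (q u)) (T (q v)) := by
    intro u v huv hxu hxv hu hv
    have h5 := h3 x0 u v hxu huv hxv hx0
    have n1 : T (q u) ≠ T (q v) := hne u v huv hu hv.1
    have n2 : T (q x0) ≠ T (q u) := by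
      intro h; exact hnew (by rw [h]; exact (hmem _).2 hu.2)
    have n3 : T (q x0) ≠ T (q v) := by
      intro h; exact hnew (by rw [h]; exact (hmem _).2 hv.2)
    rw [hD _ (card_tri n2 n1 n3), h5_tri, h5_tri] at h5
    simp only [hu.1, hv.1, or_self, false_and, not_false_eq_true, true_and, and_self,
      false_or] at h5
    rw [Bool.eq_iff_iff]
    exact h5
  have hx00 : x0 ≠ 0 := by rcases hx34 with rfl | rfl <;> decide
  have hx01 : x0 ≠ 1 := by rcases hx34 with rfl | rfl <;> decide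
  have hx02 : x0 ≠ 2 := by rcases hx34 with rfl | rfl <;> decide
  exact hfin x0 (T (q x0)) (T (q 0)) (T (q 1)) (T (q 2)) hx34
    (hne 0 1 (by decide) e0 e1.1) (hne 1 2 (by decide) e1 e2.1) (hne 0 2 (by decide) e0 e2.1)
    m0 m1 m2 hnew (key 0 1 (by decide) hx00 hx01 e0 e1) (key 0 2 (by decide) hx00 hx02 e0 e2)
    (key 1 2 (by decide) hx01 hx02 e1 e2)

theorem ne_of_b5 {p r : Bool} {x y u v : Fin 5} (h : b5 p r x u v ≠ b5 p r y u v)
    (hux : u ≠ x) (huy : u ≠ y) (hvx : v ≠ x) (hvy : v ≠ y) (huv : u ≠ v) :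
    Rel (h5 p r) x ≠ Rel (h5 p r) y := by
  intro hR
  apply h
  rw [Bool.eq_iff_iff, ← h5_tri, ← h5_tri]
  exact swap_of_eq hR huv hux huy hvx hvy

theorem ne_of_b5' {p r : Bool} {x y w : Fin 5} (h : b5 p r x y w = true)
    (hxy : x ≠ y) (hwx : w ≠ x) (hwy : w ≠ y) :
    Rel (h5 p r) x ≠ Rel (h5 p r) y := by
  intro hR
  rw [← h5_tri] at h
  exact empty_of_eq hxy hR w ⟨hwx, hwy, h⟩

/-- All triples through the pair `{3, 4}`. -/
theorem data_false_ff : Data (h5 false false) False := by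
  have h340 : (tri (3 : Fin 5) 4 0).card = 3 := card_tri (by decide) (by decide) (by decide)
  obtain ⟨T, hT⟩ := exists_T 3 (tri (3 : Fin 5) 4 0) h340
  have hD : ∀ S : Finset (Fin 5), S.card = 3 →
    (((S.card = 3 ∧ h5 false false S) ∨ (S.card ≠ 3 ∧ 3 ∈ S)) ↔ h5 false false S) := by
    intro S hS; simp [hS]
  refine ⟨T, fun S => (S.card = 3 ∧ h5 false false S) ∨ (S.card ≠ 3 ∧ 3 ∈ S), True, hD, ?_, ?_⟩
  · rw [hT, h5_tri]; decide
  · apply noCopy_of
    · apply noB_special (c := 3) (d := 4) (x0 := 0) (by decide) (by decide) (by decide) hT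
      · exact (full34 false false).2
      · intro u v _ h1 h2 h3 h4
        rw [h5_tri, h5_tri]
        revert u v
        decide
      · intro u h1 h2
        have h0 : u = 0 ∨ u = 1 ∨ u = 2 := by
          revert u
          decide
        -- all sections of `0, 1, 2` agree
        have hsec : ∀ x y v w : Fin 5, (x = 0 ∨ x = 1 ∨ x = 2) → (y = 0 ∨ y = 1 ∨ y = 2) →
            Rel (h5 false false) x v w → Rel (h5 false false) y v w := by
          intro x y v w hx hy ⟨a, b, c, d⟩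
          rw [h5_tri] at d
          unfold Rel
          rw [h5_tri]
          revert x y v w
          decide
        have heq : ∀ x y : Fin 5, (x = 0 ∨ x = 1 ∨ x = 2) → (y = 0 ∨ y = 1 ∨ y = 2) →
            Rel (h5 false false) x = Rel (h5 false false) y := by
          intro x y hx hy
          funext v w
          exact propext ⟨hsec x y v w hx hy, hsec y x v w hy hx⟩
        rcases h0 with rfl | rfl | rfl
        · exact ⟨1, by decide, heq 0 1 (by decide) (by decide)⟩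
        · exact ⟨0, by decide, heq 1 0 (by decide) (by decide)⟩
        · exact ⟨0, by decide, heq 2 0 (by decide) (by decide)⟩
      · intro x y z _ _ _ h
        rw [h5_tri] at h
        revert x y z
        decide
      · decide
    · exact noZ_five hT hD (by decide +kernel) False

theorem data_false_tt : Data (h5 true true) False := by
  have h312 : (tri (3 : Fin 5) 1 2).card = 3 := card_tri (by decide) (by decide) (by decide)
  obtain ⟨T, hT⟩ := exists_T 3 (tri (3 : Fin 5) 1 2) h312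
  have hD : ∀ S : Finset (Fin 5), S.card = 3 →
    ((S.card = 3 ∧ h5 true true S) ↔ h5 true true S) := by
    intro S hS; simp [hS]
  refine ⟨T, fun S => S.card = 3 ∧ h5 true true S, True, hD, ?_, ?_⟩
  · rw [hT, h5_tri]; decide
  · apply noCopy_of
    · apply noB_zero (t1 := 3) (t2 := 1) (t3 := 2) (by decide) (by decide) (by decide) hT
      · rw [h5_tri]; decide
      · -- no two sections agree
        have hno : ∀ x y : Fin 5, x ≠ y → Rel (h5 true true) x ≠ Rel (h5 true true) y := by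
          have hfin : ∀ x y : Fin 5, x ≠ y →
              (∃ w, w ≠ x ∧ w ≠ y ∧ b5 true true x y w = true) ∨
              (∃ u v, u ≠ v ∧ u ≠ x ∧ u ≠ y ∧ v ≠ x ∧ v ≠ y ∧
                b5 true true x u v ≠ b5 true true y u v) := by decide
          intro x y hxy
          rcases hfin x y hxy with ⟨w, h1, h2, h3⟩ | ⟨u, v, h1, h2, h3, h4, h5, h6⟩
          · exact ne_of_b5' h3 hxy h1 h2
          · exact ne_of_b5 h6 h2 h3 h4 h5 h1
        intro τ _ x hx
        by_contra hne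
        exact hno x τ hne hx
    · exact noZ_five hT hD (by decide +kernel) False

end Pool.Agent.IndSat
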