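import Mathlib
import Pool.Agent.MP_9095a7_co.Five

set_option autoImplicit false

namespace Pool.Agent.IndSat

/-- Three edges on four vertices. -/
def k4 (S : Finset (Fin 4)) : Prop := 3 ∈ S

theorem k4_pair (u v : Fin 4) : ∃ w, w ≠ u ∧ w ≠ v ∧ k4 (tri u v w) := by
  by_cases h1 : u = 3 ∨ v = 3
  · obtain ⟨w, hw1, hw2⟩ : ∃ w : Fin 4, w ≠ u ∧ w ≠ v := by
      clear h1
      revert u v
      decide
    refine ⟨w, hw1, hw2, ?_⟩
    rcases h1 with rfl | rfl
    · exact mem_tri.2 (Or.inl rfl)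
    · exact mem_tri.2 (Or.inr (Or.inl rfl))
  · have h2 := not_or.1 h1
    exact ⟨3, Ne.symm h2.1, Ne.symm h2.2, mem_tri.2 (Or.inr (Or.inr rfl))⟩

theorem noCopy_fin4 {W : Type} {q : ℕ} {H : Finset W → Prop} {T : Fin 3 ⊕ Fin q ≃ W}
    {t1 t2 t3 : W} (h12 : t1 ≠ t2) (h23 : t2 ≠ t3) (h13 : t1 ≠ t3)
    (hT : Finset.univ.map (Function.Embedding.inl.trans T.toEmbedding) = tri t1 t2 t3)
    {b : Prop} (hb : H (tri t1 t2 t3) ↔ ¬ b)
    (hfin : ∀ ψ : Fin 4 → W, Function.Injective ψ →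
      (∀ x y z, x ≠ y → y ≠ z → x ≠ z →
        (k4 (tri x y z) ↔ ¬ (H (tri (ψ x) (ψ y) (ψ z)) ↔
          tri (ψ x) (ψ y) (ψ z) = tri t1 t2 t3))) → False) :
    NoCopy 3 q k4 T (fun S => S.card = 3 ∧ H S) False b := by
  apply noCopy3
  intro out p h1 h2 h3 h4
  have hmem : ∀ x : Fin 3 ⊕ Fin q, (T x = t1 ∨ T x = t2 ∨ T x = t3) ↔ ∃ l, x = Sum.inl l := by
    intro x
    rw [← mem_tri]
    exact mem_t hT x
  obtain ⟨x0, i, hx0, hi⟩ := h1
  have hout : ∀ z, ¬ out z := by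
    intro z hz
    have hxz : x0 ≠ z := by rintro rfl; exact hx0 hz
    obtain ⟨w, hw1, hw2, hw3⟩ := k4_pair x0 z
    rcases (h3 x0 z w hxz hw2.symm hw1.symm ⟨hx0, i, hi⟩).1 hw3 with h5 | h5
    · exact h5.2
    · exact h5.1.1 hz
  have hp : ∀ u v, p u = p v → u = v := by
    intro u v huv
    by_contra hne
    rcases hpu : p u with l | j
    · exact hne (h2 u v l (hout u) (hout v) hpu (by rw [← huv]; exact hpu))
    · obtain ⟨w, hw1, hw2, hw3⟩ := k4_pair u v
      rcases (h3 u v w hne hw2.symm hw1.symm ⟨hout u, j, hpu⟩).1 hw3 with h5 | h5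
      · exact h5.2
      · have h6 := (card_tri_iff _ _ _).1 h5.2.1
        exact h6.1 (by rw [huv])
  have hψ : Function.Injective (fun v => T (p v)) := fun u v h => hp u v (T.injective h)
  apply hfin (fun v => T (p v)) hψ
  have hnew : ∀ x y z, x ≠ y → y ≠ z → x ≠ z → (∃ i, p x = Sum.inr i) →
        (k4 (tri x y z) ↔ ¬ (H (tri (T (p x)) (T (p y)) (T (p z))) ↔
          tri (T (p x)) (T (p y)) (T (p z)) = tri t1 t2 t3)) := by
    intro x y z hxy hyz hxz hx
    rw [h3 x y z hxy hyz hxz ⟨hout x, hx⟩]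
    have h5 : tri (T (p x)) (T (p y)) (T (p z)) ≠ tri t1 t2 t3 := by
      intro h
      have h6 : T (p x) ∈ tri t1 t2 t3 := by rw [← h]; exact mem_tri.2 (Or.inl rfl)
      obtain ⟨l, hl⟩ := (hmem _).1 (mem_tri.1 h6)
      obtain ⟨j, hj⟩ := hx
      rw [hj] at hl
      cases hl
    have h7 : (tri (T (p x)) (T (p y)) (T (p z))).card = 3 :=
      card_tri (fun h => hxy (hψ h)) (fun h => hyz (hψ h)) (fun h => hxz (hψ h))
    simp only [hout, or_self, not_false_eq_true, and_self, true_and, h7, false_or, h5,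
      iff_false, not_not]
  intro x y z hxy hyz hxz
  by_cases hx : ∃ i, p x = Sum.inr i
  · exact hnew x y z hxy hyz hxz hx
  by_cases hy : ∃ i, p y = Sum.inr i
  · have h5 := hnew y x z hxy.symm hxz hyz hy
    rw [tri_swap y x z, tri_swap (T (p y)) (T (p x)) (T (p z))] at h5
    exact h5
  by_cases hz : ∃ i, p z = Sum.inr i
  · have h5 := hnew z x y hxz.symm hxy hyz.symm hz
    rw [tri_swap z x y, tri_swap' x z y, tri_swap (T (p z)) (T (p x)) (T (p y)),
      tri_swap' (T (p x)) (T (p z)) (T (p y))] at h5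
    exact h5
  have hinl : ∀ v, (¬ ∃ i, p v = Sum.inr i) → ∃ l, p v = Sum.inl l := by
    intro v hv
    rcases hpv : p v with l | i
    · exact ⟨l, rfl⟩
    · exact absurd ⟨i, hpv⟩ hv
  have hx' := hinl x hx
  have hy' := hinl y hy
  have hz' := hinl z hz
  rw [h4 x y z hxy hyz hxz ⟨hout x, hx'⟩ ⟨hout y, hy'⟩ ⟨hout z, hz'⟩]
  have heq : tri (T (p x)) (T (p y)) (T (p z)) = tri t1 t2 t3 := by
    apply Finset.eq_of_subset_of_card_le
    · intro w hw
      rcases mem_tri.1 hw with rfl | rfl | rfl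
      · exact mem_tri.2 ((hmem _).2 hx')
      · exact mem_tri.2 ((hmem _).2 hy')
      · exact mem_tri.2 ((hmem _).2 hz')
    · rw [card_tri h12 h23 h13,
        card_tri (fun h => hxy (hψ h)) (fun h => hyz (hψ h)) (fun h => hxz (hψ h))]
  simp only [heq, hb, iff_true, not_not]

/-- Boolean test for being the set `{t1, t2, t3}`. -/
def eqt (t1 t2 t3 x y z : Fin 5) : Bool :=
  (x == t1 || x == t2 || x == t3) && (y == t1 || y == t2 || y == t3) &&
    (z == t1 || z == t2 || z == t3)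

theorem eqt_iff {t1 t2 t3 x y z : Fin 5} (h12 : t1 ≠ t2) (h23 : t2 ≠ t3) (h13 : t1 ≠ t3)
    (hxy : x ≠ y) (hyz : y ≠ z) (hxz : x ≠ z) :
    tri x y z = tri t1 t2 t3 ↔ eqt t1 t2 t3 x y z = true := by
  have h0 : eqt t1 t2 t3 x y z = true ↔ ((x = t1 ∨ x = t2 ∨ x = t3) ∧ (y = t1 ∨ y = t2 ∨ y = t3)
      ∧ (z = t1 ∨ z = t2 ∨ z = t3)) := by
    unfold eqt
    simp only [Bool.or_eq_true, Bool.and_eq_true, beq_iff_eq, and_assoc, or_assoc]
  rw [h0]
  constructor
  · intro h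
    refine ⟨?_, ?_, ?_⟩
    · rw [← mem_tri, ← h]; exact mem_tri.2 (Or.inl rfl)
    · rw [← mem_tri, ← h]; exact mem_tri.2 (Or.inr (Or.inl rfl))
    · rw [← mem_tri, ← h]; exact mem_tri.2 (Or.inr (Or.inr rfl))
  · rintro ⟨a, b, c⟩
    apply Finset.eq_of_subset_of_card_le
    · intro w hw
      rcases mem_tri.1 hw with rfl | rfl | rfl
      · exact mem_tri.2 a
      · exact mem_tri.2 b
      · exact mem_tri.2 c
    · rw [card_tri h12 h23 h13, card_tri hxy hyz hxz]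

theorem k4_tri (x y z : Fin 4) : k4 (tri x y z) ↔ (3 = x ∨ 3 = y ∨ 3 = z) := by
  unfold k4; rw [mem_tri]

theorem fin4_check {t1 t2 t3 : Fin 5} (h12 : t1 ≠ t2) (h23 : t2 ≠ t3) (h13 : t1 ≠ t3)
    (hfin : ∀ q0 q1 q2 q3 : Fin 5, q0 ≠ q1 → q0 ≠ q2 → q0 ≠ q3 → q1 ≠ q2 → q1 ≠ q3 → q2 ≠ q3 →
      b5 true false q0 q1 q2 = eqt t1 t2 t3 q0 q1 q2 →
      ¬ (b5 true false q0 q1 q3 = eqt t1 t2 t3 q0 q1 q3) →
      ¬ (b5 true false q0 q2 q3 = eqt t1 t2 t3 q0 q2 q3) →
      ¬ (b5 true false q1 q2 q3 = eqt t1 t2 t3 q1 q2 q3) → False)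
    (ψ : Fin 4 → Fin 5) (hψ : Function.Injective ψ)
    (h : ∀ x y z, x ≠ y → y ≠ z → x ≠ z →
        (k4 (tri x y z) ↔ ¬ (h5 true false (tri (ψ x) (ψ y) (ψ z)) ↔
          tri (ψ x) (ψ y) (ψ z) = tri t1 t2 t3))) : False := by
  have hne : ∀ x y, x ≠ y → ψ x ≠ ψ y := fun x y hxy h => hxy (hψ h)
  have h' : ∀ x y z, x ≠ y → y ≠ z → x ≠ z →
        ((3 = x ∨ 3 = y ∨ 3 = z) ↔
          ¬ (b5 true false (ψ x) (ψ y) (ψ z) = eqt t1 t2 t3 (ψ x) (ψ y) (ψ z))) := by
    intro x y z hxy hyz hxz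
    rw [← k4_tri, h x y z hxy hyz hxz, h5_tri,
      eqt_iff h12 h23 h13 (hne x y hxy) (hne y z hyz) (hne x z hxz)]
    exact not_congr Bool.eq_iff_iff.symm
  apply hfin (ψ 0) (ψ 1) (ψ 2) (ψ 3) (hne _ _ (by decide)) (hne _ _ (by decide))
    (hne _ _ (by decide)) (hne _ _ (by decide)) (hne _ _ (by decide)) (hne _ _ (by decide))
  · by_contra hcon
    exact absurd ((h' 0 1 2 (by decide) (by decide) (by decide)).2 hcon) (by decide)
  · exact (h' 0 1 3 (by decide) (by decide) (by decide)).1 (by decide)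
  · exact (h' 0 2 3 (by decide) (by decide) (by decide)).1 (by decide)
  · exact (h' 1 2 3 (by decide) (by decide) (by decide)).1 (by decide)

/-- The embedding of `k4` into the exceptional hypergraph. -/
theorem copy_k4 : Copy 3 k4 (h5 true false) := by
  let φ : Fin 4 ↪ Fin 5 := ⟨![4, 1, 2, 3], by decide⟩
  refine ⟨φ, fun S hS => ?_⟩
  obtain ⟨x, y, z, hxy, hyz, hxz, rfl⟩ := exists_tri hS
  have h1 : (tri x y z).map φ = tri (φ x) (φ y) (φ z) := by
    ext w
    simp only [Finset.mem_map, mem_tri]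
    constructor
    · rintro ⟨v, rfl | rfl | rfl, rfl⟩ <;> simp
    · rintro (rfl | rfl | rfl)
      · exact ⟨x, by simp, rfl⟩
      · exact ⟨y, by simp, rfl⟩
      · exact ⟨z, by simp, rfl⟩
  rw [h1, h5_tri, k4_tri]
  clear h1 hS
  revert x y z
  decide

theorem sat_tf : Sat 3 (h5 true false) ℕ := by
  have h312 : (tri (3 : Fin 5) 1 2).card = 3 := card_tri (by decide) (by decide) (by decide)
  obtain ⟨T0, hT0⟩ := exists_T 3 (tri (3 : Fin 5) 1 2) h312
  have h412 : (tri (4 : Fin 5) 1 2).card = 3 := card_tri (by decide) (by decide) (by decide)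
  obtain ⟨T1, hT1⟩ := exists_T 3 (tri (4 : Fin 5) 1 2) h412
  apply framework (k := 3) (q := Fintype.card (Fin 5) - 3) (by norm_num) (by simp) (h5 true false)
    (fun b => cond b T1 T0) (fun _ S => S.card = 3 ∧ h5 true false S) (fun _ => False)
    (fun b S hS => by simp [hS]) _ k4 copy_k4
  · exact ⟨tri 0 1 3, card_tri (by decide) (by decide) (by decide), by rw [k4_tri]; decide⟩
  · intro b
    cases b
    · refine noCopy_fin4 (t1 := 3) (t2 := 1) (t3 := 2) (by decide) (by decide) (by decide) hT0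
        ?_ ?_
      · rw [h5_tri]; decide
      · exact fin4_check (by decide) (by decide) (by decide) (by decide +kernel)
    · refine noCopy_fin4 (t1 := 4) (t2 := 1) (t3 := 2) (by decide) (by decide) (by decide) hT1
        ?_ ?_
      · rw [h5_tri]; decide
      · exact fin4_check (by decide) (by decide) (by decide) (by decide +kernel)
  · intro b
    cases b
    · have h1 : h5 true false (tri 3 1 2) := by rw [h5_tri]; decide
      simp only [cond_false]
      rw [hT0]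
      simp [h1]
    · have h1 : ¬ h5 true false (tri 4 1 2) := by rw [h5_tri]; decide
      simp only [cond_true]
      rw [hT1]
      simp [h1]

end Pool.Agent.IndSat
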