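import Mathlib
import Pool.Agent.MP_9095a7_co.Five2

set_option autoImplicit false

namespace Pool.Agent.IndSat

theorem map_tri {W V : Type} (φ : W ↪ V) (x y z : W) :
    (tri x y z).map φ = tri (φ x) (φ y) (φ z) := by
  ext w
  simp only [Finset.mem_map, mem_tri]
  constructor
  · rintro ⟨v, rfl | rfl | rfl, rfl⟩ <;> simp
  · rintro (rfl | rfl | rfl)
    · exact ⟨x, by simp, rfl⟩
    · exact ⟨y, by simp, rfl⟩
    · exact ⟨z, by simp, rfl⟩

theorem sat_h5 (p r : Bool) : Sat 3 (h5 p r) ℕ := by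
  have hedge : ∀ p r, ∃ S : Finset (Fin 5), S.card = 3 ∧ h5 p r S := fun p r =>
    ⟨tri 3 4 0, card_tri (by decide) (by decide) (by decide),
      (full34 p r).2 0 (by decide) (by decide)⟩
  have hnon : ∀ p r, ∃ S : Finset (Fin 5), S.card = 3 ∧ ¬ h5 p r S := fun p r =>
    ⟨tri 0 1 2, card_tri (by decide) (by decide) (by decide),
      (emp01 p r).2 2 (by decide) (by decide)⟩
  cases p <;> cases r
  · exact sat_of_data (hedge _ _) (hnon _ _) data_false_ff (data_true5 _ _)
  · -- swap `3` and `4`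
    let e : Fin 5 ≃ Fin 5 := Equiv.swap 3 4
    refine Sat.equivW e ?_ sat_tf
    intro S hS
    obtain ⟨x, y, z, hxy, hyz, hxz, rfl⟩ := exists_tri hS
    rw [map_tri, h5_tri, h5_tri]
    clear hS
    revert x y z
    decide
  · exact sat_tf
  · exact sat_of_data (hedge _ _) (hnon _ _) data_false_tt (data_true5 _ _)

theorem sorted5 : ∀ S : Finset (Fin 5), S.card = 3 →
    S = {0, 1, 2} ∨ S = {0, 1, 3} ∨ S = {0, 1, 4} ∨ S = {0, 2, 3} ∨ S = {0, 2, 4} ∨
    S = {0, 3, 4} ∨ S = {1, 2, 3} ∨ S = {1, 2, 4} ∨ S = {1, 3, 4} ∨ S = {2, 3, 4} := by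
  decide

theorem tri_eq {W : Type} [DecidableEq W] (x y z : W) : ({x, y, z} : Finset W) = tri x y z := by
  ext w; rw [mem_tri]; simp

/-- Five vertices with three vertices in empty pairs. -/
theorem sat_five {W : Type} [Fintype W] (h5c : Fintype.card W = 5) {H : Finset W → Prop}
    {c d : W} (hf : Ful H c d) (hVE : (VE H).card = 3) : Sat 3 H ℕ := by
  classical
  have hW : ∀ a b : W, ∃ c, c ≠ a ∧ c ≠ b := by
    intro a b
    obtain ⟨w, h1, h2, -⟩ := exists_other (by omega) a b b
    exact ⟨w, h1, h2⟩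
  have hc : c ∉ VE H := by
    intro h
    obtain ⟨v, hv⟩ := mem_VE.1 h
    exact hf.not_emp hW hv
  have hd : d ∉ VE H := by
    intro h
    obtain ⟨v, hv⟩ := mem_VE.1 h
    exact hf.symm.not_emp hW hv
  obtain ⟨a, b, z, hab, haz, hbz, ha, hb, hz, eab, eaz⟩ : ∃ a b z, a ≠ b ∧ a ≠ z ∧ b ≠ z ∧
      a ∈ VE H ∧ b ∈ VE H ∧ z ∈ VE H ∧ Emp H a b ∧ Emp H a z := by
    obtain ⟨u, v, w, huv, huw, hvw, hVE'⟩ := Finset.card_eq_three.1 hVE
    have hpart : ∀ x ∈ VE H, ∃ y, Emp H x y ∧ (y = u ∨ y = v ∨ y = w) := by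
      intro x hx
      obtain ⟨y, hy⟩ := mem_VE.1 hx
      have : y ∈ VE H := mem_VE.2 ⟨x, hy.symm⟩
      rw [hVE'] at this
      exact ⟨y, hy, by simpa using this⟩
    have hu : u ∈ VE H := by rw [hVE']; simp
    have hv : v ∈ VE H := by rw [hVE']; simp
    have hw : w ∈ VE H := by rw [hVE']; simp
    obtain ⟨yu, hyu, hyu'⟩ := hpart u hu
    obtain ⟨yv, hyv, hyv'⟩ := hpart v hv
    obtain ⟨yw, hyw, hyw'⟩ := hpart w hw
    rcases hyu' with rfl | rfl | rfl
    · exact absurd rfl hyu.1
    · -- `u ~ v`; look at `w`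
      rcases hyw' with rfl | rfl | rfl
      · exact ⟨yw, yu, w, huv, huw, hvw, hu, hv, hw, hyu, hyw.symm⟩
      · exact ⟨yw, u, w, huv.symm, hvw, huw, hv, hu, hw, hyu.symm, hyw.symm⟩
      · exact absurd rfl hyw.1
    · -- `u ~ w`; look at `v`
      rcases hyv' with rfl | rfl | rfl
      · exact ⟨yv, v, yu, huv, huw, hvw, hu, hv, hw, hyv.symm, hyu⟩
      · exact absurd rfl hyv.1
      · exact ⟨yv, u, v, huw.symm, hvw.symm, huv, hw, hu, hv, hyu.symm, hyv.symm⟩
  have hac : a ≠ c := by rintro rfl; exact hc ha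
  have had : a ≠ d := by rintro rfl; exact hd ha
  have hbc : b ≠ c := by rintro rfl; exact hc hb
  have hbd : b ≠ d := by rintro rfl; exact hd hb
  have hzc : z ≠ c := by rintro rfl; exact hc hz
  have hzd : z ≠ d := by rintro rfl; exact hd hz
  have hcd := hf.1
  let g : Fin 5 → W := ![a, b, z, c, d]
  have hg : Function.Injective g := by
    intro i j hij
    fin_cases i <;> fin_cases j <;> simp [g] at hij ⊢ <;>
      first
        | exact absurd hij hab
        | exact absurd hij hab.symm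
        | exact absurd hij haz
        | exact absurd hij haz.symm
        | exact absurd hij hbz
        | exact absurd hij hbz.symm
        | exact absurd hij hac
        | exact absurd hij hac.symm
        | exact absurd hij had
        | exact absurd hij had.symm
        | exact absurd hij hbc
        | exact absurd hij hbc.symm
        | exact absurd hij hbd
        | exact absurd hij hbd.symm
        | exact absurd hij hzc
        | exact absurd hij hzc.symm
        | exact absurd hij hzd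
        | exact absurd hij hzd.symm
        | exact absurd hij hcd
        | exact absurd hij hcd.symm
  have hbij : Function.Bijective g := by
    rw [Fintype.bijective_iff_injective_and_card]
    exact ⟨hg, by simp [h5c]⟩
  let e : Fin 5 ≃ W := Equiv.ofBijective g hbij
  refine Sat.equivW e ?_ (sat_h5 (decide (H (tri b z c))) (decide (H (tri b z d))))
  intro S hS
  have e0 : e 0 = a := rfl
  have e1 : e 1 = b := rfl
  have e2 : e 2 = z := rfl
  have e3 : e 3 = c := rfl
  have e4 : e 4 = d := rfl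
  rcases sorted5 S hS with rfl | rfl | rfl | rfl | rfl | rfl | rfl | rfl | rfl | rfl
  · rw [tri_eq, map_tri, h5_tri]
    simp only [Equiv.coe_toEmbedding, e0, e1, e2, b5]
    simp [eab.2 z haz.symm hbz.symm]
  · rw [tri_eq, map_tri, h5_tri]
    simp only [Equiv.coe_toEmbedding, e0, e1, e3, b5]
    simp [eab.2 c hac.symm hbc.symm]
  · rw [tri_eq, map_tri, h5_tri]
    simp only [Equiv.coe_toEmbedding, e0, e1, e4, b5]
    simp [eab.2 d had.symm hbd.symm]
  · rw [tri_eq, map_tri, h5_tri]
    simp only [Equiv.coe_toEmbedding, e0, e2, e3, b5]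
    simp [eaz.2 c hac.symm hzc.symm]
  · rw [tri_eq, map_tri, h5_tri]
    simp only [Equiv.coe_toEmbedding, e0, e2, e4, b5]
    simp [eaz.2 d had.symm hzd.symm]
  · have h1 : H (tri a c d) := by rw [tri_swap, tri_swap']; exact hf.2 a hac had
    rw [tri_eq, map_tri, h5_tri]
    simp only [Equiv.coe_toEmbedding, e0, e3, e4, b5]
    simp [h1]
  · rw [tri_eq, map_tri, h5_tri]
    simp only [Equiv.coe_toEmbedding, e1, e2, e3, b5]
    simp
  · rw [tri_eq, map_tri, h5_tri]
    simp only [Equiv.coe_toEmbedding, e1, e2, e4, b5]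
    simp
  · have h1 : H (tri b c d) := by rw [tri_swap, tri_swap']; exact hf.2 b hbc hbd
    rw [tri_eq, map_tri, h5_tri]
    simp only [Equiv.coe_toEmbedding, e1, e3, e4, b5]
    simp [h1]
  · have h1 : H (tri z c d) := by rw [tri_swap, tri_swap']; exact hf.2 z hzc hzd
    rw [tri_eq, map_tri, h5_tri]
    simp only [Equiv.coe_toEmbedding, e2, e3, e4, b5]
    simp [h1]

end Pool.Agent.IndSat
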