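import Mathlib
import Pool.Agent.MP_9095a7_co.Five3

set_option autoImplicit false

namespace Pool.Agent.IndSat

/-- Two edges on four vertices. -/
def h4 (S : Finset (Fin 4)) : Prop := 2 ∈ S ∧ 3 ∈ S

/-- Congruence modulo `2 ^ n`. -/
def cg (n : ℕ) (x y : ℤ) : Prop := (2 : ℤ) ^ n ∣ x - y

theorem cg.symm {n : ℕ} {x y : ℤ} (h : cg n x y) : cg n y x := by
  unfold cg at *
  rw [← neg_sub]
  exact (dvd_neg).2 h

theorem cg.trans {n : ℕ} {x y z : ℤ} (h : cg n x y) (h' : cg n y z) : cg n x z := by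
  unfold cg at *
  have := dvd_add h h'
  simpa using this

theorem cg.refl (n : ℕ) (x : ℤ) : cg n x x := by simp [cg]

theorem cg.le {n m : ℕ} (hnm : m ≤ n) {x y : ℤ} (h : cg n x y) : cg m x y :=
  dvd_trans (pow_dvd_pow 2 hnm) h

/-- The set is contained in one class modulo `2 ^ n` and not modulo `2 ^ (n + 1)`. -/
def atL (n : ℕ) (S : Finset ℤ) : Prop :=
  (∀ x ∈ S, ∀ y ∈ S, cg n x y) ∧ ¬ ∀ x ∈ S, ∀ y ∈ S, cg (n + 1) x y

theorem atL_unique {n m : ℕ} {S : Finset ℤ} (h : atL n S) (h' : atL m S) : n = m := by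
  rcases lt_trichotomy n m with h1 | h1 | h1
  · exact absurd (fun x hx y hy => (h'.1 x hx y hy).le h1) h.2
  · exact h1
  · exact absurd (fun x hx y hy => (h.1 x hx y hy).le h1) h'.2

/-- The hypergraph on the integers. -/
def G2 (S : Finset ℤ) : Prop := ∃ n, Odd n ∧ atL n S

theorem G2_iff {n : ℕ} {S : Finset ℤ} (h : atL n S) : G2 S ↔ Odd n := by
  constructor
  · rintro ⟨m, hm, hm'⟩
    rw [atL_unique h hm']; exact hm
  · intro hn
    exact ⟨n, hn, h⟩

theorem exists_level {x y : ℤ} (hxy : x ≠ y) : ∃ n, cg n x y ∧ ¬ cg (n + 1) x y := by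
  classical
  have hex : ∃ n, ¬ cg n x y := by
    by_contra hcon
    push Not at hcon
    have h1 : x - y ≠ 0 := sub_ne_zero.2 hxy
    have h2 := hcon (x - y).natAbs
    unfold cg at h2
    have h3 := Int.natAbs_dvd_natAbs.2 h2
    have h4 := Nat.le_of_dvd (Int.natAbs_pos.2 h1) h3
    rw [Int.natAbs_pow] at h4
    have h5 : (x - y).natAbs < 2 ^ (x - y).natAbs := Nat.lt_two_pow_self
    simp at h4
    omega
  have h0 : Nat.find hex ≠ 0 := by
    intro h
    have := Nat.find_spec hex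
    rw [h] at this
    apply this
    simp [cg]
  refine ⟨Nat.find hex - 1, ?_, ?_⟩
  · by_contra h
    have := Nat.find_min' hex h
    omega
  · rw [Nat.sub_add_cancel (Nat.one_le_iff_ne_zero.2 h0)]
    exact Nat.find_spec hex

/-- Two classes only. -/
theorem two_classes {n : ℕ} {x y z : ℤ} (hxy : cg n x y) (hxz : cg n x z)
    (h1 : ¬ cg (n + 1) x y) (h2 : ¬ cg (n + 1) x z) : cg (n + 1) y z := by
  unfold cg at *
  obtain ⟨a, ha⟩ := hxy
  obtain ⟨b, hb⟩ := hxz
  have ha' : ¬ (2 : ℤ) ∣ a := by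
    rintro ⟨c, rfl⟩
    apply h1
    exact ⟨c, by rw [ha, pow_succ]; ring⟩
  have hb' : ¬ (2 : ℤ) ∣ b := by
    rintro ⟨c, rfl⟩
    apply h2
    exact ⟨c, by rw [hb, pow_succ]; ring⟩
  have h3 : (2 : ℤ) ∣ b - a := by omega
  obtain ⟨c, hc⟩ := h3
  refine ⟨c, ?_⟩
  have : y - z = 2 ^ n * (b - a) := by
    rw [mul_sub, ← ha, ← hb]; ring
  rw [this, hc, pow_succ]; ring

theorem atL_tri {n : ℕ} {x y z : ℤ} (hxy : cg n x y) (hxz : cg n x z)
    (h : ¬ cg (n + 1) x y ∨ ¬ cg (n + 1) x z ∨ ¬ cg (n + 1) y z) : atL n (tri x y z) := by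
  constructor
  · intro u hu v hv
    have hu' : cg n x u := by
      rcases mem_tri.1 hu with rfl | rfl | rfl
      · exact cg.refl _ _
      · exact hxy
      · exact hxz
    have hv' : cg n x v := by
      rcases mem_tri.1 hv with rfl | rfl | rfl
      · exact cg.refl _ _
      · exact hxy
      · exact hxz
    exact hu'.symm.trans hv'
  · intro hall
    rcases h with h | h | h
    · exact h (hall x (mem_tri.2 (by simp)) y (mem_tri.2 (by simp)))
    · exact h (hall x (mem_tri.2 (by simp)) z (mem_tri.2 (by simp)))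
    · exact h (hall y (mem_tri.2 (by simp)) z (mem_tri.2 (by simp)))

theorem h4_tri (x y z : Fin 4) : h4 (tri x y z) ↔ (2 = x ∨ 2 = y ∨ 2 = z) ∧
    (3 = x ∨ 3 = y ∨ 3 = z) := by
  unfold h4; rw [mem_tri, mem_tri]

theorem G2_free : ¬ Copy 3 h4 G2 := by
  classical
  rintro ⟨φ, hφ⟩
  -- the top level of the four points
  have hne : ∀ i j, i ≠ j → φ i ≠ φ j := fun i j hij h => hij (φ.injective h)
  have htop : ∃ n, (∀ i j, cg n (φ i) (φ j)) ∧ ∃ i j, ¬ cg (n + 1) (φ i) (φ j) := by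
    have hex : ∃ n, ∃ i j, ¬ cg n (φ i) (φ j) := by
      obtain ⟨n, -, hn⟩ := exists_level (hne 0 1 (by decide))
      exact ⟨n + 1, 0, 1, hn⟩
    have h0 : Nat.find hex ≠ 0 := by
      intro h
      obtain ⟨i, j, hij⟩ := Nat.find_spec hex
      rw [h] at hij
      apply hij
      simp [cg]
    refine ⟨Nat.find hex - 1, ?_, ?_⟩
    · intro i j
      by_contra h
      have := Nat.find_min' hex ⟨i, j, h⟩
      omega
    · rw [Nat.sub_add_cancel (Nat.one_le_iff_ne_zero.2 h0)]
      exact Nat.find_spec hex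
  obtain ⟨n, hn, i0, j0, hij0⟩ := htop
  -- colour
  let f : Fin 4 → Bool := fun i => decide (cg (n + 1) (φ i0) (φ i))
  have hf0 : f i0 = true := by simp [f, cg.refl]
  have hfj : f j0 = false := by simp [f, hij0]
  have hfne : ∀ i j, f i ≠ f j → ¬ cg (n + 1) (φ i) (φ j) := by
    intro i j hij h
    apply hij
    simp only [f, decide_eq_decide]
    exact ⟨fun h' => h'.trans h, fun h' => h'.trans h.symm⟩
  have hlev : ∀ i j k, (f i ≠ f j ∨ f i ≠ f k ∨ f j ≠ f k) → i ≠ j → j ≠ k → i ≠ k →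
      (h4 (tri i j k) ↔ Odd n) := by
    intro i j k h hij hjk hik
    rw [hφ _ (card_tri hij hjk hik), map_tri]
    apply G2_iff
    apply atL_tri (hn i j) (hn i k)
    rcases h with h | h | h
    · exact Or.inl (hfne _ _ h)
    · exact Or.inr (Or.inl (hfne _ _ h))
    · exact Or.inr (Or.inr (hfne _ _ h))
  have hcomb : ∀ f0 f1 f2 f3 : Bool, ¬ (f0 = f1 ∧ f1 = f2 ∧ f2 = f3) →
      ((f0 ≠ f1 ∨ f0 ≠ f2 ∨ f1 ≠ f2) ∨ (f0 ≠ f1 ∨ f0 ≠ f3 ∨ f1 ≠ f3)) ∧
      ((f0 ≠ f2 ∨ f0 ≠ f3 ∨ f2 ≠ f3) ∨ (f1 ≠ f2 ∨ f1 ≠ f3 ∨ f2 ≠ f3)) := by decide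
  have hnc : ¬ (f 0 = f 1 ∧ f 1 = f 2 ∧ f 2 = f 3) := by
    rintro ⟨h1, h2, h3⟩
    have h4 : ∀ i, f i = f 0 := by
      intro i
      fin_cases i
      · rfl
      · exact h1.symm
      · exact (h1.trans h2).symm
      · exact (h1.trans (h2.trans h3)).symm
    rw [h4 i0] at hf0
    rw [h4 j0] at hfj
    rw [hf0] at hfj
    cases hfj
  obtain ⟨hA, hB⟩ := hcomb _ _ _ _ hnc
  have hodd : Odd n := by
    rcases hB with h | h
    · exact (hlev 0 2 3 h (by decide) (by decide) (by decide)).1 (by rw [h4_tri]; decide)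
    · exact (hlev 1 2 3 h (by decide) (by decide) (by decide)).1 (by rw [h4_tri]; decide)
  have heven : ¬ Odd n := by
    intro ho
    rcases hA with h | h
    · have := (hlev 0 1 2 h (by decide) (by decide) (by decide)).2 ho
      rw [h4_tri] at this
      revert this
      decide
    · have := (hlev 0 1 3 h (by decide) (by decide) (by decide)).2 ho
      rw [h4_tri] at this
      revert this
      decide
  exact heven hodd

theorem copy_of_four {F : Finset ℤ → Prop} {u v s t : ℤ} (huv : u ≠ v) (hus : u ≠ s)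
    (hut : u ≠ t) (hvs : v ≠ s) (hvt : v ≠ t) (hst : s ≠ t)
    (h1 : ¬ F (tri u v s)) (h2 : ¬ F (tri u v t)) (h3 : F (tri u s t)) (h4' : F (tri v s t)) :
    Copy 3 h4 F := by
  let g : Fin 4 → ℤ := ![u, v, s, t]
  have hg : Function.Injective g := by
    intro i j hij
    fin_cases i <;> fin_cases j <;> simp [g] at hij ⊢ <;>
      first
        | exact absurd hij huv
        | exact absurd hij huv.symm
        | exact absurd hij hus
        | exact absurd hij hus.symm
        | exact absurd hij hut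
        | exact absurd hij hut.symm
        | exact absurd hij hvs
        | exact absurd hij hvs.symm
        | exact absurd hij hvt
        | exact absurd hij hvt.symm
        | exact absurd hij hst
        | exact absurd hij hst.symm
  refine ⟨⟨g, hg⟩, fun S hS => ?_⟩
  have hsorted : ∀ S : Finset (Fin 4), S.card = 3 →
    S = {0, 1, 2} ∨ S = {0, 1, 3} ∨ S = {0, 2, 3} ∨ S = {1, 2, 3} := by decide
  have g0 : g 0 = u := rfl
  have g1 : g 1 = v := rfl
  have g2 : g 2 = s := rfl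
  have g3 : g 3 = t := rfl
  rcases hsorted S hS with rfl | rfl | rfl | rfl
  · rw [tri_eq, map_tri, h4_tri]
    simp only [Function.Embedding.coeFn_mk, g0, g1, g2]
    simp [h1]
  · rw [tri_eq, map_tri, h4_tri]
    simp only [Function.Embedding.coeFn_mk, g0, g1, g3]
    simp [h2]
  · rw [tri_eq, map_tri, h4_tri]
    simp only [Function.Embedding.coeFn_mk, g0, g2, g3]
    simp [h3]
  · rw [tri_eq, map_tri, h4_tri]
    simp only [Function.Embedding.coeFn_mk, g1, g2, g3]
    simp [h4']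

theorem G2_pert (P : Set (Finset ℤ)) (hP : P.Nonempty) (hPk : ∀ e ∈ P, e.card = 3)
    (hPf : ∀ v, {e | e ∈ P ∧ v ∈ e}.Finite) : Copy 3 h4 (fun S => ¬ (G2 S ↔ S ∈ P)) := by
  classical
  obtain ⟨e0, he0⟩ := hP
  obtain ⟨x', y', z', h1, h2, h3, rfl⟩ := exists_tri (hPk e0 he0)
  -- name the points such that `x` is separated first
  obtain ⟨x, y, z, a, hxy, hyz, hxz, htri, ca, na, cb⟩ : ∃ x y z a, x ≠ y ∧ y ≠ z ∧ x ≠ z ∧
      tri x y z = tri x' y' z' ∧ cg a x y ∧ ¬ cg (a + 1) x y ∧ cg (a + 1) y z := by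
    obtain ⟨n, hn1, hn2⟩ := exists_level h1
    obtain ⟨m, hm1, hm2⟩ := exists_level h2
    by_cases hc1 : cg (n + 1) y' z'
    · exact ⟨x', y', z', n, h1, h2, h3, rfl, hn1, hn2, hc1⟩
    · by_cases hc2 : cg (n + 1) x' z'
      · refine ⟨y', x', z', n, h1.symm, h3, h2, tri_swap _ _ _, hn1.symm, fun h => hn2 h.symm, hc2⟩
      · -- then `m ≤ n`, and `x', y'` are closer
        have hmn : m ≤ n := by
          by_contra hcon
          exact hc1 (hm1.le (by omega))
        rcases Nat.lt_or_ge m n with h4 | h4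
        · refine ⟨z', x', y', m, h3.symm, h1, h2.symm, ?_, ?_, ?_, ?_⟩
          · rw [tri_swap, tri_swap']
          · exact ((hn1.le h4.le).trans hm1).symm
          · intro h
            exact hm2 ((hn1.le h4).symm.trans h.symm)
          · exact hn1.le h4
        · have hmn' : m = n := by omega
          subst hmn'
          exfalso
          exact hc1 (two_classes hn1 (hn1.trans hm1) hn2 hc2)
  rw [← htri] at he0
  clear h1 h2 h3 htri
  obtain ⟨b, hb1, hb2⟩ := exists_level hyz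
  have hab : a < b := by
    by_contra hcon
    exact hb2 (cb.le (by omega))
  -- the finite set to be avoided
  have hfinP : (⋃ S ∈ ({e | e ∈ P ∧ y ∈ e} ∪ {e | e ∈ P ∧ z ∈ e}), (S : Set ℤ)).Finite :=
    Set.Finite.biUnion ((hPf y).union (hPf z)) (fun S _ => S.finite_toSet)
  have hfin : ((⋃ S ∈ ({e | e ∈ P ∧ y ∈ e} ∪ {e | e ∈ P ∧ z ∈ e}), (S : Set ℤ)) ∪
      ({x, y, z} : Set ℤ)).Finite := hfinP.union (by simp)
  -- main claim
  have main : ∀ c w, a < c → (Odd c ↔ ¬ Odd a) → w ∉ ((⋃ S ∈ ({e | e ∈ P ∧ y ∈ e} ∪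
      {e | e ∈ P ∧ z ∈ e}), (S : Set ℤ)) ∪ ({x, y, z} : Set ℤ)) →
      atL c (tri y z w) → Copy 3 h4 (fun S => ¬ (G2 S ↔ S ∈ P)) := by
    intro c w hac hodd hw hat
    rw [Set.mem_union, not_or] at hw
    have hwx : x ≠ w := by rintro rfl; exact hw.2 (by simp)
    have hwy : y ≠ w := by rintro rfl; exact hw.2 (by simp)
    have hwz : z ≠ w := by rintro rfl; exact hw.2 (by simp)
    have hyw : cg (a + 1) y w :=
      (hat.1 y (mem_tri.2 (by simp)) w (mem_tri.2 (by simp))).le hac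
    have L1 : atL a (tri x y z) := atL_tri ca (ca.trans (cb.le (by omega))) (Or.inl na)
    have L2 : atL a (tri x y w) := atL_tri ca (ca.trans (hyw.le (by omega))) (Or.inl na)
    have L3 : atL a (tri x z w) := by
      refine atL_tri (ca.trans (cb.le (by omega))) (ca.trans (hyw.le (by omega))) (Or.inl ?_)
      intro h
      exact na (h.trans cb.symm)
    have nP : ∀ S : Finset ℤ, w ∈ S → (y ∈ S ∨ z ∈ S) → S ∉ P := by
      intro S hwS hS hSP
      apply hw.1
      refine Set.mem_biUnion (x := S) ?_ hwS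
      rcases hS with h | h
      · exact Or.inl ⟨hSP, h⟩
      · exact Or.inr ⟨hSP, h⟩
    have n2 : tri x y w ∉ P := nP _ (mem_tri.2 (by simp)) (Or.inl (mem_tri.2 (by simp)))
    have n3 : tri x z w ∉ P := nP _ (mem_tri.2 (by simp)) (Or.inr (mem_tri.2 (by simp)))
    have n4 : tri y z w ∉ P := nP _ (mem_tri.2 (by simp)) (Or.inl (mem_tri.2 (by simp)))
    have F1 : (¬ (G2 (tri x y z) ↔ tri x y z ∈ P)) ↔ ¬ Odd a := by
      rw [G2_iff L1]; simp [he0]
    have F2 : (¬ (G2 (tri x y w) ↔ tri x y w ∈ P)) ↔ Odd a := by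
      rw [G2_iff L2]; simp [n2]
    have F3 : (¬ (G2 (tri x z w) ↔ tri x z w ∈ P)) ↔ Odd a := by
      rw [G2_iff L3]; simp [n3]
    have F4 : (¬ (G2 (tri y z w) ↔ tri y z w ∈ P)) ↔ ¬ Odd a := by
      rw [G2_iff hat, hodd]; simp [n4]
    by_cases ha : Odd a
    · -- edges `x y w`, `x z w`
      apply copy_of_four (u := y) (v := z) (s := x) (t := w) hyz hxy.symm hwy hxz.symm hwz hwx
      · rw [tri_swap' y z x, tri_swap y x z, F1]; simp [ha]
      · rw [F4]; simp [ha]
      · rw [tri_swap y x w, F2]; exact ha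
      · rw [tri_swap z x w, F3]; exact ha
    · -- edges `x y z`, `y z w`
      apply copy_of_four (u := x) (v := w) (s := y) (t := z) hwx hxy hxz hwy.symm hwz.symm hyz
      · rw [tri_swap' x w y, F2]; exact ha
      · rw [tri_swap' x w z, F3]; exact ha
      · rw [F1]; exact ha
      · rw [tri_swap w y z, tri_swap' y w z, F4]; exact ha
  by_cases hpar : (Odd b ↔ ¬ Odd a)
  · -- `w = y + 2 ^ (b + 1 + j)`
    have hinj : Function.Injective (fun j : ℕ => y + (2 : ℤ) ^ (b + 1 + j)) := by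
      intro i j hij
      have h1 : (2 : ℤ) ^ (b + 1 + i) = 2 ^ (b + 1 + j) := by simpa using hij
      have h2 := pow_right_injective₀ (M₀ := ℤ) (a := 2) (by norm_num) (by norm_num) h1
      omega
    obtain ⟨w, ⟨j, rfl⟩, hw⟩ : ∃ w ∈ Set.range (fun j : ℕ => y + (2 : ℤ) ^ (b + 1 + j)),
        w ∉ ((⋃ S ∈ ({e | e ∈ P ∧ y ∈ e} ∪ {e | e ∈ P ∧ z ∈ e}), (S : Set ℤ)) ∪
        ({x, y, z} : Set ℤ)) := by
      by_contra hcon
      push Not at hcon
      exact (Set.infinite_range_of_injective hinj) (hfin.subset hcon)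
    apply main b _ hab hpar hw
    have hyw : cg (b + 1) y (y + (2 : ℤ) ^ (b + 1 + j)) := by
      unfold cg
      rw [show y - (y + (2 : ℤ) ^ (b + 1 + j)) = -(2 : ℤ) ^ (b + 1 + j) by ring, dvd_neg]
      exact pow_dvd_pow 2 (by omega)
    exact atL_tri hb1 (hyw.le (by omega)) (Or.inl hb2)
  · have hb2' : a + 2 ≤ b := by
      by_contra hcon
      have : b = a + 1 := by omega
      subst this
      apply hpar
      rw [Nat.odd_add_one]
    -- `w = y + 2 ^ (a + 1) * (1 + 2 j)`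
    have hinj : Function.Injective (fun j : ℕ => y + (2 : ℤ) ^ (a + 1) * (1 + 2 * (j : ℤ))) := by
      intro i j hij
      have h0 : (2 : ℤ) ^ (a + 1) ≠ 0 := by positivity
      have h1 : (2 : ℤ) ^ (a + 1) * (1 + 2 * (i : ℤ)) = (2 : ℤ) ^ (a + 1) * (1 + 2 * (j : ℤ)) := by
        simpa using hij
      have h2 := mul_left_cancel₀ h0 h1
      omega
    obtain ⟨w, ⟨j, rfl⟩, hw⟩ : ∃ w ∈ Set.range
        (fun j : ℕ => y + (2 : ℤ) ^ (a + 1) * (1 + 2 * (j : ℤ))),
        w ∉ ((⋃ S ∈ ({e | e ∈ P ∧ y ∈ e} ∪ {e | e ∈ P ∧ z ∈ e}), (S : Set ℤ)) ∪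
        ({x, y, z} : Set ℤ)) := by
      by_contra hcon
      push Not at hcon
      exact (Set.infinite_range_of_injective hinj) (hfin.subset hcon)
    apply main (a + 1) _ (by omega) (Nat.odd_add_one) hw
    have hyw : cg (a + 1) y (y + (2 : ℤ) ^ (a + 1) * (1 + 2 * (j : ℤ))) := by
      unfold cg
      rw [show y - (y + (2 : ℤ) ^ (a + 1) * (1 + 2 * (j : ℤ))) =
        (2 : ℤ) ^ (a + 1) * (-(1 + 2 * (j : ℤ))) by ring]
      exact Dvd.intro _ rfl
    have hyw' : ¬ cg (a + 1 + 1) y (y + (2 : ℤ) ^ (a + 1) * (1 + 2 * (j : ℤ))) := by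
      unfold cg
      rintro ⟨k, hk⟩
      have h0 : (2 : ℤ) ^ (a + 1) ≠ 0 := by positivity
      have h1 : (2 : ℤ) ^ (a + 1) * (-(1 + 2 * (j : ℤ))) = (2 : ℤ) ^ (a + 1) * (2 * k) := by
        rw [pow_succ (2 : ℤ) (a + 1)] at hk
        linear_combination hk
      have h2 := mul_left_cancel₀ h0 h1
      omega
    exact atL_tri (hb1.le (by omega)) hyw (Or.inr (Or.inl hyw'))

theorem sat_h4 : Sat 3 h4 ℕ := by
  have h : Sat 3 h4 ℤ := ⟨G2, G2_free, G2_pert⟩
  exact h.equivV Equiv.intEquivNat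

/-- Four vertices. -/
theorem sat_four {W : Type} [Fintype W] (h4c : Fintype.card W = 4) {H : Finset W → Prop}
    {a b c d : W} (he : Emp H a b) (hf : Ful H c d) : Sat 3 H ℕ := by
  classical
  have hW : ∀ a b : W, ∃ c, c ≠ a ∧ c ≠ b := by
    intro a b
    obtain ⟨w, h1, h2, -⟩ := exists_other (by omega) a b b
    exact ⟨w, h1, h2⟩
  have hab := he.1
  have hcd := hf.1
  have hac : a ≠ c := by rintro rfl; exact hf.not_emp hW he
  have had : a ≠ d := by rintro rfl; exact hf.symm.not_emp hW he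
  have hbc : b ≠ c := by rintro rfl; exact hf.not_emp hW he.symm
  have hbd : b ≠ d := by rintro rfl; exact hf.symm.not_emp hW he.symm
  let g : Fin 4 → W := ![a, b, c, d]
  have hg : Function.Injective g := by
    intro i j hij
    fin_cases i <;> fin_cases j <;> simp [g] at hij ⊢ <;>
      first
        | exact absurd hij hab
        | exact absurd hij hab.symm
        | exact absurd hij hac
        | exact absurd hij hac.symm
        | exact absurd hij had
        | exact absurd hij had.symm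
        | exact absurd hij hbc
        | exact absurd hij hbc.symm
        | exact absurd hij hbd
        | exact absurd hij hbd.symm
        | exact absurd hij hcd
        | exact absurd hij hcd.symm
  have hbij : Function.Bijective g := by
    rw [Fintype.bijective_iff_injective_and_card]
    exact ⟨hg, by simp [h4c]⟩
  let e : Fin 4 ≃ W := Equiv.ofBijective g hbij
  refine Sat.equivW e ?_ sat_h4
  intro S hS
  have e0 : e 0 = a := rfl
  have e1 : e 1 = b := rfl
  have e2 : e 2 = c := rfl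
  have e3 : e 3 = d := rfl
  have hsorted : ∀ S : Finset (Fin 4), S.card = 3 →
    S = {0, 1, 2} ∨ S = {0, 1, 3} ∨ S = {0, 2, 3} ∨ S = {1, 2, 3} := by decide
  rcases hsorted S hS with rfl | rfl | rfl | rfl
  · rw [tri_eq, map_tri, h4_tri]
    simp only [Equiv.coe_toEmbedding, e0, e1, e2]
    simp [he.2 c hac.symm hbc.symm]
  · rw [tri_eq, map_tri, h4_tri]
    simp only [Equiv.coe_toEmbedding, e0, e1, e3]
    simp [he.2 d had.symm hbd.symm]
  · have h1 : H (tri a c d) := by rw [tri_swap, tri_swap']; exact hf.2 a hac had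
    rw [tri_eq, map_tri, h4_tri]
    simp only [Equiv.coe_toEmbedding, e0, e2, e3]
    simp [h1]
  · have h1 : H (tri b c d) := by rw [tri_swap, tri_swap']; exact hf.2 b hbc hbd
    rw [tri_eq, map_tri, h4_tri]
    simp only [Equiv.coe_toEmbedding, e1, e2, e3]
    simp [h1]

end Pool.Agent.IndSat
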