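import Mathlib
import Pool.Agent.MP_9095a7_co.Four

set_option autoImplicit false

namespace Pool.Agent.IndSat

theorem Sat.congrH {W V : Type} {k : ℕ} {H H' : Finset W → Prop}
    (h : ∀ S : Finset W, S.card = k → (H S ↔ H' S)) (hs : Sat k H V) : Sat k H' V := by
  refine Sat.equivW (Equiv.refl W) ?_ hs
  intro S hS
  have : (Equiv.refl W).toEmbedding = Function.Embedding.refl W := rfl
  rw [this, Finset.map_refl]
  exact h S hS

theorem Sat.of_compl {W V : Type} {k : ℕ} {H : Finset W → Prop}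
    (h : Sat k (fun S => ¬ H S) V) : Sat k H V :=
  h.compl.congrH (fun _ _ => not_not)

theorem sat_three {W : Type} [Finite W] (H : Finset W → Prop)
    (hedge : ∃ S, S.card = 3 ∧ H S) (hnon : ∃ S, S.card = 3 ∧ ¬ H S) : Sat 3 H ℕ := by
  classical
  have := Fintype.ofFinite W
  by_cases hE : ∃ a b, Emp H a b
  swap
  · apply sat_of_pairs 3 (by norm_num) H hedge hnon
    intro u v huv
    by_contra hcon
    push Not at hcon
    apply hE
    refine ⟨u, v, huv, fun w h1 h2 => ?_⟩
    exact hcon (tri u v w) (card_tri huv h2.symm h1.symm) (mem_tri.2 (by simp))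
      (mem_tri.2 (by simp))
  by_cases hF : ∃ c d, Ful H c d
  swap
  · apply Sat.of_compl
    apply sat_of_pairs 3 (by norm_num) (fun S => ¬ H S) hnon
      (by obtain ⟨S, h1, h2⟩ := hedge; exact ⟨S, h1, not_not.2 h2⟩)
    intro u v huv
    by_contra hcon
    push Not at hcon
    apply hF
    refine ⟨u, v, huv, fun w h1 h2 => ?_⟩
    exact hcon (tri u v w) (card_tri huv h2.symm h1.symm) (mem_tri.2 (by simp))
      (mem_tri.2 (by simp))
  obtain ⟨a, b, he⟩ := hE
  obtain ⟨c, d, hf⟩ := hF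
  have h3 : 4 ≤ Fintype.card W := by
    obtain ⟨S, hS, hS'⟩ := hedge
    obtain ⟨U, hU, hU'⟩ := hnon
    have h1 : S.card ≤ Fintype.card W := Finset.card_le_univ S
    rcases Nat.lt_or_ge 3 (Fintype.card W) with h | h
    · omega
    · exfalso
      have h2 : S = Finset.univ := Finset.eq_univ_of_card S (by omega)
      have h3 : U = Finset.univ := Finset.eq_univ_of_card U (by omega)
      rw [h2] at hS'
      rw [h3] at hU'
      exact hU' hS'
  by_cases h6 : 6 ≤ Fintype.card W
  · exact sat_three_six h6 he hf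
  by_cases h4 : Fintype.card W = 4
  · exact sat_four h4 he hf
  have h5 : Fintype.card W = 5 := by omega
  by_cases hVE : (VE H).card = 3
  · exact sat_five h5 hf hVE
  by_cases hVF : (VE (fun S => ¬ H S)).card = 3
  · apply Sat.of_compl
    exact sat_five h5 (ful_compl he) hVF
  · exact sat_of_data hedge hnon (data_false h3 hf (by omega)) (data_true h3 he (by omega))

theorem exists_superset {W : Type} [Fintype W] {k : ℕ} (h4 : 4 ≤ k) (hk : k ≤ Fintype.card W)
    (u v u' v' : W) : ∃ S : Finset W, S.card = k ∧ u ∈ S ∧ v ∈ S ∧ u' ∈ S ∧ v' ∈ S := by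
  classical
  have h1 : ({u, v, u', v'} : Finset W).card ≤ k := Finset.card_le_four.trans h4
  obtain ⟨S, hS, hc⟩ := Finset.exists_superset_card_eq h1 hk
  refine ⟨S, hc, hS ?_, hS ?_, hS ?_, hS ?_⟩ <;> simp

theorem sat_ge_four {W : Type} [Finite W] {k : ℕ} (hk4 : 4 ≤ k) (H : Finset W → Prop)
    (hedge : ∃ S, S.card = k ∧ H S) (hnon : ∃ S, S.card = k ∧ ¬ H S) : Sat k H ℕ := by
  classical
  have := Fintype.ofFinite W
  have hkW : k ≤ Fintype.card W := by
    obtain ⟨S, hS, -⟩ := hedge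
    rw [← hS]
    exact Finset.card_le_univ S
  by_cases hp : ∀ u v, u ≠ v → ∃ S : Finset W, S.card = k ∧ u ∈ S ∧ v ∈ S ∧ H S
  · exact sat_of_pairs k (by omega) H hedge hnon hp
  · push Not at hp
    obtain ⟨u, v, huv, h⟩ := hp
    apply Sat.of_compl
    apply sat_of_pairs k (by omega) (fun S => ¬ H S) hnon
      (by obtain ⟨S, h1, h2⟩ := hedge; exact ⟨S, h1, not_not.2 h2⟩)
    intro u' v' _
    obtain ⟨S, hS, h1, h2, h3, h4⟩ := exists_superset hk4 hkW u v u' v'
    exact ⟨S, hS, h3, h4, h S hS h1 h2⟩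

theorem sat_all {W : Type} [Finite W] {k : ℕ} (hk3 : 3 ≤ k) (H : Finset W → Prop)
    (hedge : ∃ S, S.card = k ∧ H S) (hnon : ∃ S, S.card = k ∧ ¬ H S) : Sat k H ℕ := by
  rcases Nat.lt_or_ge 3 k with h | h
  · exact sat_ge_four h H hedge hnon
  · obtain rfl : k = 3 := by omega
    exact sat_three H hedge hnon

end Pool.Agent.IndSat
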